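import Mathlib

set_option autoImplicit false

namespace Pool.Agent.H2.CFGen

variable {T N : Type}

/-- words realizing a sentential form, where nonterminals are interpreted by `I` -/
inductive Real (I : N → List T → Prop) : List (Symbol T N) → List T → Prop
  | nil : Real I [] []
  | term (t : T) {s : List (Symbol T N)} {w : List T} (h : Real I s w) :
      Real I (Symbol.terminal t :: s) (t :: w)
  | nonterm (n : N) {s : List (Symbol T N)} {u w : List T} (hu : I n u) (h : Real I s w) :
      Real I (Symbol.nonterminal n :: s) (u ++ w)

lemma Real.append {I : N → List T → Prop} {s s' : List (Symbol T N)} {w w' : List T}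
    (h : Real I s w) (h' : Real I s' w') : Real I (s ++ s') (w ++ w') := by
  induction h with
  | nil => exact h'
  | term t _ ih => exact Real.term t ih
  | nonterm n hu _ ih =>
    rw [List.append_assoc]
    exact Real.nonterm n hu ih

lemma Real.split {I : N → List T → Prop} {s s' : List (Symbol T N)} {w : List T}
    (h : Real I (s ++ s') w) : ∃ w1 w2, w = w1 ++ w2 ∧ Real I s w1 ∧ Real I s' w2 := by
  induction s generalizing w with
  | nil => exact ⟨[], w, rfl, Real.nil, h⟩
  | cons a s ih =>
    rw [List.cons_append] at h
    cases h with
    | term t h =>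
      obtain ⟨w1, w2, rfl, h1, h2⟩ := ih h
      exact ⟨t :: w1, w2, rfl, Real.term t h1, h2⟩
    | nonterm n hu h =>
      obtain ⟨w1, w2, rfl, h1, h2⟩ := ih h
      exact ⟨_ ++ w1, w2, by rw [List.append_assoc], Real.nonterm n hu h1, h2⟩

lemma real_terminals (I : N → List T → Prop) (w : List T) :
    Real I (w.map Symbol.terminal) w := by
  induction w with
  | nil => exact Real.nil
  | cons a w ih => exact Real.term a ih

/-- soundness -/
lemma sound (g : ContextFreeGrammar T) (I : g.NT → List T → Prop)
    (hI : ∀ r ∈ g.rules, ∀ w, Real I r.output w → I r.input w)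
    {s : List (Symbol T g.NT)} {w : List T} (h : g.Derives s (w.map Symbol.terminal)) :
    Real I s w := by
  induction h using Relation.ReflTransGen.head_induction_on with
  | refl => exact real_terminals I w
  | head hp _ ih =>
    obtain ⟨r, hr, hrw⟩ := hp
    obtain ⟨p, q, rfl, rfl⟩ := hrw.exists_parts
    obtain ⟨w1, w2, rfl, h1, h2⟩ := ih.split
    obtain ⟨w3, w4, rfl, h3, h4⟩ := h1.split
    have h5 : Real I [Symbol.nonterminal r.input] w4 := by
      have := Real.nonterm r.input (hI r hr w4 h4) (Real.nil (I := I))
      rwa [List.append_nil] at this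
    exact (h3.append h5).append h2

/-- completeness -/
lemma derives_of_real (g : ContextFreeGrammar T) {s : List (Symbol T g.NT)} {w : List T}
    (h : Real (fun n u => g.Derives [Symbol.nonterminal n] (u.map Symbol.terminal)) s w) :
    g.Derives s (w.map Symbol.terminal) := by
  induction h with
  | nil => exact ContextFreeGrammar.Derives.refl _
  | term t _ ih =>
    rw [List.map_cons]
    exact ih.append_left [Symbol.terminal t]
  | @nonterm n s u w hu _ ih =>
    rw [List.map_append]
    have h1 : g.Derives ([Symbol.nonterminal n] ++ s) (u.map Symbol.terminal ++ s) :=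
      ContextFreeGrammar.Derives.append_right hu s
    have h2 : g.Derives (u.map Symbol.terminal ++ s)
        (u.map Symbol.terminal ++ w.map Symbol.terminal) :=
      ContextFreeGrammar.Derives.append_left ih _
    exact h1.trans h2

lemma complete (g : ContextFreeGrammar T) (r : ContextFreeRule T g.NT) (hr : r ∈ g.rules)
    {w : List T}
    (h : Real (fun n u => g.Derives [Symbol.nonterminal n] (u.map Symbol.terminal)) r.output w) :
    g.Derives [Symbol.nonterminal r.input] (w.map Symbol.terminal) := by
  have h1 := derives_of_real g h
  have h2 : g.Produces [Symbol.nonterminal r.input] r.output :=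
    ⟨r, hr, ContextFreeRule.Rewrites.input_output⟩
  exact h2.trans_derives h1

end Pool.Agent.H2.CFGen
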