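import Pool.Agent.H2.CFWords

set_option autoImplicit false

namespace Pool.Agent.H2.CFWords

open Br

def swp : Br → Br
  | o => c
  | c => o
  | m => m

@[simp] lemma swp_swp (a : Br) : swp (swp a) = a := by cases a <;> rfl
@[simp] lemma hv_swp (a : Br) : hv (swp a) = - hv a := by cases a <;> rfl

def sg (u : List Br) : List Br := (u.map swp).reverse

@[simp] lemma sg_nil : sg [] = [] := rfl
@[simp] lemma sg_append (u v : List Br) : sg (u ++ v) = sg v ++ sg u := by simp [sg]
@[simp] lemma sg_cons (a : Br) (u : List Br) : sg (a :: u) = sg u ++ [swp a] := by simp [sg]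
@[simp] lemma sg_sg (u : List Br) : sg (sg u) = u := by
  have : swp ∘ swp = id := by funext a; simp
  simp [sg, List.map_reverse, this]
@[simp] lemma h_sg (u : List Br) : h (sg u) = - h u := by
  induction u with
  | nil => simp
  | cons a u ih => simp [ih]

lemma sg_flatten (l : List (List Br)) : sg l.flatten = ((l.reverse).map sg).flatten := by
  induction l with
  | nil => rfl
  | cons p t ih => simp [ih]

lemma BalQ.sg {u : List Br} (hu : BalQ u) : BalQ (sg u) := by
  refine ⟨by rw [h_sg, hu.1]; rfl, ?_⟩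
  rintro p ⟨t, ht⟩
  have h1 : CFWords.sg t ++ CFWords.sg p = u := by
    rw [← sg_append, ht, sg_sg]
  have h2 := hu.2 (CFWords.sg t) ⟨_, h1⟩
  have h3 : h (CFWords.sg t) + h (CFWords.sg p) = 0 := by
    rw [← h_append, h1, hu.1]
  rw [h_sg] at h2 h3
  rw [h_sg] at h3
  omega

lemma Prm.sg {p : List Br} (hp : Prm p) : Prm (sg p) := by
  obtain ⟨q, hq, rfl⟩ := hp
  exact ⟨CFWords.sg q, hq.sg, by simp [swp]⟩

lemma AllP.sg {l : List (List Br)} (hl : AllP l) : AllP ((l.reverse).map sg) := by
  intro p hp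
  obtain ⟨q, hq, rfl⟩ := List.mem_map.1 hp
  exact (hl q (List.mem_reverse.1 hq)).sg

lemma Items.sg {n : ℕ} {x : List Br} (hx : Items n x) : Items n (sg x) := by
  induction hx with
  | nil => exact Items.nil
  | mid _ ih =>
    rw [sg_cons]
    have := ih.append (Items.mid Items.nil)
    simpa [swp] using this
  | prm hp _ ih =>
    rw [sg_append]
    have := ih.append (Items.prm hp.sg Items.nil)
    simpa using this

lemma v_sg (n : ℕ) : ((Lft n).reverse).map sg = Rgt n ∧ ((Rgt n).reverse).map sg = Lft n ∧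
    sg (v n) = v n := by
  have key : ∀ n, ((Lft n).reverse).map sg = Rgt n → ((Rgt n).reverse).map sg = Lft n →
      sg (v n) = v n := by
    intro n h1 h2
    rw [v, sg_cons, sg_append, sg_cons, sg_append, sg_flatten, sg_flatten, h1, h2]
    simp [swp]
  induction n with
  | zero => exact ⟨rfl, rfl, key 0 rfl rfl⟩
  | succ n ih =>
    obtain ⟨h1, h2, h3⟩ := ih
    have h4 : ((Lft (n + 1)).reverse).map sg = Rgt (n + 1) := by
      rw [Lft_succ, Rgt_succ]; simp [h3, ← h1]
    have h5 : ((Rgt (n + 1)).reverse).map sg = Lft (n + 1) := by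
      rw [Lft_succ, Rgt_succ]; simp [h3, ← h2]
    exact ⟨h4, h5, key _ h4 h5⟩

def Pat1 (u : List Br) : Prop := ∃ n x e y, Items n x ∧ Items n y ∧ AllP e ∧
  u = o :: (x ++ c :: (List.flatten e ++ o :: (y ++ [c])))
def Pat2 (u : List Br) : Prop := ∃ e, AllP e ∧ u = m :: (e.flatten ++ [m])
def Pat3 (u : List Br) : Prop := ∃ l l', AllP l ∧ AllP l' ∧ l.length = l'.length ∧
  u = o :: (l.flatten ++ o :: (l'.flatten ++ [o]))
def Pat4 (u : List Br) : Prop := ∃ l l', AllP l ∧ AllP l' ∧ l'.length = l.length + 1 ∧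
  u = o :: (l.flatten ++ o :: l'.flatten)
def Pat5 (u : List Br) : Prop := ∃ l e l', AllP l ∧ AllP e ∧ AllP l' ∧ l.length = l'.length ∧
  u = o :: (l.flatten ++ m :: (e.flatten ++ o :: l'.flatten))

def Pat0 (u : List Br) : Prop := Pat1 u ∨ Pat2 u ∨ Pat3 u ∨ Pat4 u ∨ Pat5 u
def Pat (u : List Br) : Prop := Pat0 u ∨ Pat0 (sg u)

lemma node {N : ℕ} {α β : List Br} (he : v N = α ++ o :: β) : ∃ i γ, o :: β = v i ++ γ := by
  rcases occ_o N α β he with rfl | ⟨i, γ, h1, _⟩
  · exact ⟨N, [], by simpa using he.symm⟩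
  · exact ⟨i, γ, h1⟩

lemma Lft_at {b i : ℕ} (hb : b < i) : ∃ t, Lft i = Lft b ++ v b :: t := by
  induction i with
  | zero => omega
  | succ i ih =>
    rw [Lft_succ]
    rcases Nat.lt_or_ge b i with h1 | h1
    · obtain ⟨t, ht⟩ := ih h1
      exact ⟨t ++ [v i], by rw [ht]; simp⟩
    · have : b = i := by omega
      subst this
      exact ⟨[], rfl⟩

lemma helpA {l : List (List Br)} {i : ℕ} {z w : List Br} (hl : AllP l)
    (he : l.flatten ++ o :: z = (Lft i).flatten ++ m :: w) :
    l.length < i ∧ ∃ γ, o :: z = v l.length ++ γ := by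
  rcases parse hl (allP_v i).1 he with ⟨l2, h1, h2⟩ | ⟨l2, h1, h2⟩
  · cases l2 with
    | nil => simp at h2
    | cons p l3 =>
      have hlen : l.length < i := by
        have := congrArg List.length h1
        rw [Lft_len, List.length_append, List.length_cons] at this
        omega
      obtain ⟨t, ht⟩ := Lft_at hlen
      rw [ht] at h1
      have h3 := List.append_inj h1 (by rw [Lft_len])
      have h4 := (List.cons.inj h3.2).1
      refine ⟨hlen, l3.flatten ++ m :: w, ?_⟩
      rw [h2, h4]; simp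
  · have h3 := hl
    rw [h1] at h3
    have h4 : AllP l2 := fun q hq => h3 q (List.mem_append_right _ hq)
    have h5 := flatten_head h4 (by decide) h2
    simp at h5

lemma helpB {l : List (List Br)} {i : ℕ} {z w : List Br} (hl : AllP l)
    (he : l.flatten ++ z = (Lft i).flatten ++ m :: w) : l.length ≤ i := by
  rcases parse hl (allP_v i).1 he with ⟨l2, h1, h2⟩ | ⟨l2, h1, h2⟩
  · have := congrArg List.length h1
    rw [Lft_len, List.length_append] at this
    omega
  · have h3 := hl
    rw [h1] at h3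
    have h4 : AllP l2 := fun q hq => h3 q (List.mem_append_right _ hq)
    have h5 := (flatten_head h4 (by decide) h2).1
    rw [h5, List.append_nil] at h1
    rw [h1, Lft_len]

lemma no3 {u : List Br} (hu : Pat3 u) (N : ℕ) (α β : List Br) : v N ≠ α ++ u ++ β := by
  intro he
  obtain ⟨l, l', hl, hl', hlen, rfl⟩ := hu
  simp only [List.append_assoc, List.cons_append, List.nil_append] at he
  obtain ⟨i, γ, h1⟩ := node he
  rw [v, List.cons_append] at h1
  have h2 := (List.cons.inj h1).2
  simp only [List.append_assoc, List.cons_append, List.nil_append] at h2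
  obtain ⟨h3, γ', h4⟩ := helpA hl h2
  rw [v, List.cons_append] at h4
  have h5 := (List.cons.inj h4).2
  simp only [List.append_assoc, List.cons_append, List.nil_append] at h5
  obtain ⟨h6, _⟩ := helpA hl' h5
  omega

lemma no4 {u : List Br} (hu : Pat4 u) (N : ℕ) (α β : List Br) : v N ≠ α ++ u ++ β := by
  intro he
  obtain ⟨l, l', hl, hl', hlen, rfl⟩ := hu
  simp only [List.append_assoc, List.cons_append, List.nil_append] at he
  obtain ⟨i, γ, h1⟩ := node he
  rw [v, List.cons_append] at h1
  have h2 := (List.cons.inj h1).2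
  simp only [List.append_assoc, List.cons_append, List.nil_append] at h2
  obtain ⟨h3, γ', h4⟩ := helpA hl h2
  rw [v, List.cons_append] at h4
  have h5 := (List.cons.inj h4).2
  simp only [List.append_assoc, List.cons_append, List.nil_append] at h5
  have h6 := helpB hl' h5
  omega

lemma no5 {u : List Br} (hu : Pat5 u) (N : ℕ) (α β : List Br) : v N ≠ α ++ u ++ β := by
  intro he
  obtain ⟨l, e, l', hl, hE, hl', hlen, rfl⟩ := hu
  simp only [List.append_assoc, List.cons_append, List.nil_append] at he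
  obtain ⟨i, γ, h1⟩ := node he
  rw [v, List.cons_append] at h1
  have h2 := (List.cons.inj h1).2
  simp only [List.append_assoc, List.cons_append, List.nil_append] at h2
  have h3 : l.length = i ∧ e.flatten ++ (o :: (l'.flatten ++ β)) = (Rgt i).flatten ++ c :: γ := by
    rcases parse hl (allP_v i).1 h2 with ⟨l2, h3, h4⟩ | ⟨l2, h3, h4⟩
    · have h5 : AllP l2 := fun q hq => (allP_v i).1 q (h3 ▸ List.mem_append_right _ hq)
      obtain ⟨h6, h7⟩ := flatten_head h5 (by decide) h4
      rw [h6, List.append_nil] at h3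
      refine ⟨by rw [← h3, Lft_len], (List.cons.inj h7).2⟩
    · have h5 : AllP l2 := fun q hq => hl q (h3 ▸ List.mem_append_right _ hq)
      obtain ⟨h6, h7⟩ := flatten_head h5 (by decide) h4
      rw [h6, List.append_nil] at h3
      refine ⟨by rw [h3, Lft_len], (List.cons.inj h7).2.symm⟩
  obtain ⟨h3, h4⟩ := h3
  rcases parse hE (allP_v i).2.1 h4 with ⟨l2, h5, h6⟩ | ⟨l2, h5, h6⟩
  · cases l2 with
    | nil => simp at h6
    | cons p l3 =>
      obtain ⟨j, hj, hp, _, _⟩ := Rgt_split h5
      rw [hp, List.flatten_cons, v] at h6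
      simp only [List.append_assoc, List.cons_append, List.nil_append] at h6
      have h7 := (List.cons.inj h6).2
      have h8 := helpB hl' h7
      omega
  · have h7 : AllP l2 := fun q hq => hE q (h5 ▸ List.mem_append_right _ hq)
    obtain ⟨_, h8⟩ := flatten_head h7 (by decide) h6
    simp at h8

lemma no2 {u : List Br} (hu : Pat2 u) (N : ℕ) (α β : List Br) : v N ≠ α ++ u ++ β := by
  intro he
  obtain ⟨e, hE, rfl⟩ := hu
  simp only [List.append_assoc, List.cons_append, List.nil_append] at he
  obtain ⟨i, δ, h1⟩ := occ_m N _ _ he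
  rcases parse hE (allP_v i).2.1 h1 with ⟨l2, h5, h6⟩ | ⟨l2, h5, h6⟩
  · have h7 : AllP l2 := fun q hq => (allP_v i).2.1 q (h5 ▸ List.mem_append_right _ hq)
    obtain ⟨_, h8⟩ := flatten_head h7 (by decide) h6
    simp at h8
  · have h7 : AllP l2 := fun q hq => hE q (h5 ▸ List.mem_append_right _ hq)
    obtain ⟨_, h8⟩ := flatten_head h7 (by decide) h6
    simp at h8

lemma no1 {u : List Br} (hu : Pat1 u) (N : ℕ) (α β : List Br) : v N ≠ α ++ u ++ β := by
  intro he
  obtain ⟨n, x, e, y, hx, hy, hE, rfl⟩ := hu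
  have hp : Prm (o :: (x ++ [c])) := ⟨x, hx.balQ, rfl⟩
  have hp' : Prm (o :: (y ++ [c])) := ⟨y, hy.balQ, rfl⟩
  have he' : v N = α ++ o :: ((x ++ [c]) ++ (e.flatten ++ (o :: (y ++ [c])) ++ β)) := by
    rw [he]; simp
  rcases occ_o N _ _ he' with rfl | ⟨i, γ, h1, hT⟩
  · have h2 : (o :: (x ++ [c])) ++ (e.flatten ++ (o :: (y ++ [c])) ++ β) = v N ++ [] := by
      rw [he']; simp
    have h3 := (prm_uniq hp (allP_v N).2.2 h2).2
    simp at h3
  · have h2 : (o :: (x ++ [c])) ++ (e.flatten ++ (o :: (y ++ [c])) ++ β) = v i ++ γ := by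
      rw [← h1]; simp
    obtain ⟨h3, h4⟩ := prm_uniq hp (allP_v i).2.2 h2
    obtain ⟨t, a, δ, ha, ht, hγ⟩ := hT
    have htP : AllP t := by
      intro q hq
      obtain ⟨j, _, rfl⟩ := ht q hq
      exact (allP_v j).2.2
    rw [hγ, List.append_assoc] at h4
    have h5 : ∃ j, j ≠ i ∧ o :: (y ++ [c]) = v j := by
      rcases parse hE htP h4 with ⟨l2, h5, h6⟩ | ⟨l2, h5, h6⟩
      · cases l2 with
        | nil => simp at h6; exact absurd h6.1.symm ha
        | cons q l3 =>
          have hq : q ∈ t := h5 ▸ List.mem_append_right _ List.mem_cons_self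
          obtain ⟨j, hj, hqj⟩ := ht q hq
          rw [List.flatten_cons, List.append_assoc] at h6
          have h7 := (prm_uniq hp' (htP q hq) h6).1
          exact ⟨j, hj, h7.trans hqj⟩
      · have h7 : AllP l2 := fun q hq => hE q (h5 ▸ List.mem_append_right _ hq)
        obtain ⟨_, h8⟩ := flatten_head h7 ha h6
        simp at h8
        exact absurd h8.1 ha
    obtain ⟨j, hj, h6⟩ := h5
    have key : ∀ (k : ℕ) (z : List Br), Items n z → o :: (z ++ [c]) = v k → n = 2 * k := by
      intro k z hz h7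
      rw [v_eq'] at h7
      have h8 := List.append_cancel_right (List.cons.inj h7).2
      rw [h8] at hz
      exact hz.unique (items_v k)
    have h7 := key i x hx h3
    have h8 := key j y hy h6
    omega

lemma no0 {u : List Br} (hu : Pat0 u) (N : ℕ) (α β : List Br) : v N ≠ α ++ u ++ β := by
  rcases hu with hu | hu | hu | hu | hu
  · exact no1 hu N α β
  · exact no2 hu N α β
  · exact no3 hu N α β
  · exact no4 hu N α β
  · exact no5 hu N α β

/-- no pattern word is a factor of `v N` -/
theorem no_pat {u : List Br} (hu : Pat u) (N : ℕ) : ¬ u <:+: v N := by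
  rintro ⟨α, β, he⟩
  rcases hu with hu | hu
  · exact no0 hu N α β he.symm
  · have h1 := congrArg sg he
    rw [(v_sg N).2.2, sg_append, sg_append] at h1
    exact no0 hu N (sg β) (sg α) (by rw [← h1]; simp)

end Pool.Agent.H2.CFWords
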