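import Pool.Agent.H2.CFPat

set_option autoImplicit false

namespace Pool.Agent.H2.CFWords

open Br

lemma first_passage : ∀ (u : List Br) (k : ℕ), h u < -(k : ℤ) →
    ∃ s r, u = s ++ c :: r ∧ (k : ℤ) + h s = 0 ∧ ∀ p, p <+: s → 0 ≤ (k : ℤ) + h p := by
  intro u
  induction u with
  | nil => intro k hk; simp at hk; omega
  | cons a u ih =>
    intro k hk
    rw [h_cons] at hk
    cases a with
    | o =>
      rw [hv_o] at hk
      obtain ⟨s, r, rfl, h1, h2⟩ := ih (k + 1) (by push_cast; omega)
      push_cast at h1 h2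
      refine ⟨o :: s, r, rfl, by simp; omega, ?_⟩
      intro p hp
      rcases List.prefix_cons_iff.1 hp with rfl | ⟨t, rfl, ht⟩
      · simp
      · have := h2 t ht; simp; omega
    | m =>
      rw [hv_m] at hk
      obtain ⟨s, r, rfl, h1, h2⟩ := ih k (by omega)
      refine ⟨m :: s, r, rfl, by simp; omega, ?_⟩
      intro p hp
      rcases List.prefix_cons_iff.1 hp with rfl | ⟨t, rfl, ht⟩
      · simp
      · have := h2 t ht; simp; omega
    | c =>
      rw [hv_c] at hk
      cases k with
      | zero =>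
        refine ⟨[], u, rfl, by simp, ?_⟩
        intro p hp
        rw [List.prefix_nil] at hp
        subst hp; simp
      | succ k =>
        obtain ⟨s, r, rfl, h1, h2⟩ := ih k (by push_cast at hk; omega)
        refine ⟨c :: s, r, rfl, by simp; omega, ?_⟩
        intro p hp
        rcases List.prefix_cons_iff.1 hp with rfl | ⟨t, rfl, ht⟩
        · simp; omega
        · have := h2 t ht; simp; omega

lemma BalQ.items : ∀ (n : ℕ) (q : List Br), q.length = n → BalQ q → ∃ k, Items k q := by
  intro n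
  induction n using Nat.strong_induction_on with
  | _ n ih =>
    intro q hn hq
    cases q with
    | nil => exact ⟨0, Items.nil⟩
    | cons a q' =>
      cases a with
      | m =>
        have h1 : BalQ q' := by
          refine ⟨by have := hq.1; simpa using this, fun p hp => ?_⟩
          have := hq.2 (m :: p) ((List.prefix_cons_inj m).2 hp)
          simpa using this
        obtain ⟨k, hk⟩ := ih q'.length (by simp at hn; omega) q' rfl h1
        exact ⟨k, Items.mid hk⟩
      | c =>
        have := hq.2 [c] (by simp)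
        simp at this
      | o =>
        have h0 := hq.1
        rw [h_cons, hv_o] at h0
        obtain ⟨s, r, rfl, h1, h2⟩ := first_passage q' 0 (by push_cast; omega)
        have hs : BalQ s := ⟨by simpa using h1, fun p hp => by simpa using h2 p hp⟩
        have hp : Prm (o :: (s ++ [c])) := ⟨s, hs, rfl⟩
        have hr : BalQ r := by
          rw [h_append, h_cons, hs.1, hv_c] at h0
          refine ⟨by omega, fun p hp' => ?_⟩
          have := hq.2 (o :: (s ++ c :: p)) (by
            obtain ⟨t, rfl⟩ := hp'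
            exact ⟨t, by simp⟩)
          rw [h_cons, h_append, h_cons, hs.1, hv_o, hv_c] at this
          omega
        obtain ⟨k, hk⟩ := ih r.length (by simp at hn; omega) r rfl hr
        refine ⟨k + 1, ?_⟩
        have := Items.prm hp hk
        simpa using this

lemma items_cases {n : ℕ} {z : List Br} (hz : Items n z) :
    (∃ l, AllP l ∧ z = l.flatten) ∨
      (∃ l z' k, AllP l ∧ z = l.flatten ++ m :: z' ∧ Items k z') := by
  induction hz with
  | nil => left; exact ⟨[], AllP.nil, rfl⟩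
  | mid hx _ => right; exact ⟨[], _, _, AllP.nil, rfl, hx⟩
  | prm hp _ ih =>
    rcases ih with ⟨l, hl, rfl⟩ | ⟨l, z', k, hl, rfl, hz'⟩
    · left; exact ⟨_ :: l, AllP.cons hp hl, rfl⟩
    · right; exact ⟨_ :: l, z', k, AllP.cons hp hl, by simp, hz'⟩

lemma asc : ∀ u : List Br, Nn u → ∃ (Ts : List (List Br)) (T : List Br), (∀ S ∈ Ts, BalQ S) ∧
    BalQ T ∧ u = (Ts.map (fun S => S ++ [o])).flatten ++ T := by
  intro u
  induction u using List.reverseRecOn with
  | nil => intro _; exact ⟨[], [], by simp, BalQ.nil, rfl⟩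
  | append_singleton u a ih =>
    intro hn
    obtain ⟨Ts, T, h1, h2, h3⟩ := ih (fun p hp => hn p (hp.trans (List.prefix_append _ _)))
    cases a with
    | m =>
      exact ⟨Ts, T ++ [m], h1, h2.append BalQ.mid, by rw [h3]; simp⟩
    | o =>
      refine ⟨Ts ++ [T], [], ?_, BalQ.nil, by rw [h3]; simp⟩
      intro S hS
      rcases List.mem_append.1 hS with hS | hS
      · exact h1 S hS
      · rw [List.mem_singleton] at hS; subst hS; exact h2
    | c =>
      rcases List.eq_nil_or_concat Ts with rfl | ⟨Us, U, rfl⟩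
      · exfalso
        have := hn (u ++ [c]) List.prefix_rfl
        rw [h3] at this
        simp [h2.1] at this
      · refine ⟨Us, U ++ (o :: (T ++ [c])), ?_, ?_, ?_⟩
        · intro S hS
          exact h1 S (by simp [hS])
        · have hU : BalQ U := h1 U (by simp)
          exact hU.append (BalQ.prm ⟨T, h2, rfl⟩)
        · rw [h3]; simp

lemma rot : ∀ w : List Br, ∃ x y, w = x ++ y ∧ (∀ p, p <+: w → h x ≤ h p) ∧
    (∀ q, q <+: y → q ≠ [] → 0 < h q) := by
  intro w
  induction w using List.reverseRecOn with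
  | nil =>
    refine ⟨[], [], rfl, ?_, ?_⟩
    · intro p hp; rw [List.prefix_nil] at hp; rw [hp]
    · intro q hq hne; rw [List.prefix_nil] at hq; exact absurd hq hne
  | append_singleton w a ih =>
    obtain ⟨x, y, rfl, h1, h2⟩ := ih
    by_cases hc : h (x ++ y ++ [a]) ≤ h x
    · refine ⟨x ++ y ++ [a], [], by simp, ?_, ?_⟩
      · intro p hp
        rcases List.prefix_concat_iff.1 hp with rfl | hp
        · exact le_rfl
        · exact le_trans hc (h1 p hp)
      · intro q hq hne; rw [List.prefix_nil] at hq; exact absurd hq hne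
    · push Not at hc
      refine ⟨x, y ++ [a], by simp, ?_, ?_⟩
      · intro p hp
        rcases List.prefix_concat_iff.1 hp with rfl | hp
        · exact hc.le
        · exact h1 p hp
      · intro q hq hne
        rcases List.prefix_concat_iff.1 hq with rfl | hq
        · rw [List.append_assoc, h_append] at hc
          omega
        · exact h2 q hq hne

lemma case0 {w : List Br} (hw : w ≠ []) (h0 : h w = 0) :
    ∃ u, Pat0 u ∧ u <:+: (List.replicate 3 w).flatten := by
  obtain ⟨x, y, rfl, h1, h2⟩ := rot w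
  have hb : BalQ (y ++ x) := by
    rw [h_append] at h0
    refine ⟨by rw [h_append]; omega, fun p hp => ?_⟩
    rcases prefix_append_cases hp with hp | ⟨q, hq, rfl⟩
    · by_cases hpe : p = []
      · subst hpe; simp
      · exact (h2 p hp hpe).le
    · have := h1 q (hq.trans (List.prefix_append _ _))
      rw [h_append]; omega
  obtain ⟨n, hn⟩ := BalQ.items _ (y ++ x) rfl hb
  have hfac : ∀ u, u <:+: (y ++ x) ++ (y ++ x) → u <:+: (List.replicate 3 (x ++ y)).flatten := by
    rintro u ⟨s, t, hst⟩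
    refine ⟨x ++ s, t ++ y, ?_⟩
    have : (List.replicate 3 (x ++ y)).flatten = x ++ ((y ++ x) ++ (y ++ x)) ++ y := by
      simp [List.replicate]
    rw [this, ← hst]; simp
  have hne : y ++ x ≠ [] := by
    intro h; apply hw
    obtain ⟨rfl, rfl⟩ := List.append_eq_nil_iff.1 h
    rfl
  rcases items_cases hn with ⟨l, hl, hle⟩ | ⟨l, z', k, hl, hle, hz'⟩
  · cases l with
    | nil => exact absurd hle hne
    | cons p t =>
      obtain ⟨q, hq, hpq⟩ := hl.head
      obtain ⟨k, hk⟩ := BalQ.items _ q rfl hq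
      refine ⟨o :: (q ++ c :: (t.flatten ++ o :: (q ++ [c]))),
        Or.inl ⟨k, q, t, q, hk, hk, hl.tail, rfl⟩, hfac _ ?_⟩
      rw [hle, List.flatten_cons, hpq]
      exact ⟨[], t.flatten, by simp⟩
  · rcases items_cases hz' with ⟨l', hl', rfl⟩ | ⟨l', z'', k', hl', rfl, _⟩
    · refine ⟨m :: ((l' ++ l).flatten ++ [m]), Or.inr (Or.inl ⟨l' ++ l, hl'.append hl, rfl⟩),
        hfac _ ?_⟩
      rw [hle]
      exact ⟨l.flatten, l'.flatten, by simp⟩
    · refine ⟨m :: (l'.flatten ++ [m]), Or.inr (Or.inl ⟨l', hl', rfl⟩), hfac _ ?_⟩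
      rw [hle]
      exact ⟨l.flatten, z'' ++ (l.flatten ++ m :: (l'.flatten ++ m :: z'')), by simp⟩

/-- profiles -/
def PL (n : ℕ) (S : List Br) : Prop := ∃ l, AllP l ∧ l.length = n ∧ S = l.flatten
def PR (n : ℕ) (S : List Br) : Prop := ∃ l e, AllP l ∧ AllP e ∧ l.length = n ∧
  S = l.flatten ++ m :: e.flatten

lemma prof {S : List Br} (hS : BalQ S) :
    (∃ u, Pat2 u ∧ u <:+: S) ∨ ∃ n, PL n S ∨ PR n S := by
  obtain ⟨n, hn⟩ := BalQ.items _ S rfl hS
  rcases items_cases hn with ⟨l, hl, rfl⟩ | ⟨l, z', k, hl, rfl, hz'⟩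
  · right; exact ⟨l.length, Or.inl ⟨l, hl, rfl, rfl⟩⟩
  · rcases items_cases hz' with ⟨l', hl', rfl⟩ | ⟨l', z'', k', hl', rfl, _⟩
    · right; exact ⟨l.length, Or.inr ⟨l, l', hl, hl', rfl, rfl⟩⟩
    · left
      exact ⟨m :: (l'.flatten ++ [m]), ⟨l', hl', rfl⟩, ⟨l.flatten, z'', by simp⟩⟩

lemma prof_take {S : List Br} {n k : ℕ} (hk : k ≤ n) (hS : PL n S ∨ PR n S) :
    ∃ l t, AllP l ∧ l.length = k ∧ S = l.flatten ++ t := by
  rcases hS with ⟨l, hl, hn, rfl⟩ | ⟨l, e, hl, _, hn, rfl⟩
  · refine ⟨l.take k, (l.drop k).flatten, fun p hp => hl p (List.mem_of_mem_take hp), ?_, ?_⟩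
    · rw [List.length_take]; omega
    · rw [← List.flatten_append, List.take_append_drop]
  · refine ⟨l.take k, (l.drop k).flatten ++ m :: e.flatten,
      fun p hp => hl p (List.mem_of_mem_take hp), ?_, ?_⟩
    · rw [List.length_take]; omega
    · rw [← List.append_assoc, ← List.flatten_append, List.take_append_drop]

lemma shift_o (Ts : List (List Br)) (T : List Br) :
    o :: ((Ts.map (fun S => S ++ [o])).flatten ++ T) =
      ((Ts ++ [T]).map (fun S => o :: S)).flatten := by
  induction Ts with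
  | nil => simp
  | cons U Us ih => simp at ih ⊢; exact ih

lemma casepos {w : List Br} (h0 : 0 < h w) :
    ∃ u, Pat0 u ∧ u <:+: (List.replicate 4 w).flatten := by
  obtain ⟨x, y, rfl, h1, h2⟩ := rot w
  have hpos : ∀ p, p <+: y ++ x → p ≠ [] → 0 < h p := by
    intro p hp hne
    rcases prefix_append_cases hp with hp | ⟨q, hq, rfl⟩
    · exact h2 p hp hne
    · have h3 := h1 q (hq.trans (List.prefix_append _ _))
      rw [h_append] at h0 ⊢
      omega
  have hfac : ∀ u, u <:+: (y ++ x) ++ ((y ++ x) ++ (y ++ x)) →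
      u <:+: (List.replicate 4 (x ++ y)).flatten := by
    rintro u ⟨s, t, hst⟩
    refine ⟨x ++ s, t ++ y, ?_⟩
    have : (List.replicate 4 (x ++ y)).flatten =
        x ++ ((y ++ x) ++ ((y ++ x) ++ (y ++ x))) ++ y := by
      simp [List.replicate]
    rw [this, ← hst]; simp
  -- first letter
  obtain ⟨t, ht, hnn⟩ : ∃ t, y ++ x = o :: t ∧ Nn t := by
    cases hyx : y ++ x with
    | nil =>
      obtain ⟨rfl, rfl⟩ := List.append_eq_nil_iff.1 hyx
      simp at h0
    | cons a t =>
      have ha : a = o := by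
        have := hpos [a] (by rw [hyx]; simp) (by simp)
        cases a with
        | o => rfl
        | c => simp at this
        | m => simp at this
      subst ha
      refine ⟨t, rfl, fun p hp => ?_⟩
      have := hpos (o :: p) (by rw [hyx]; exact (List.prefix_cons_inj o).2 hp) (by simp)
      rw [h_cons, hv_o] at this
      omega
  obtain ⟨Ts, T, h3, h4, h5⟩ := asc t hnn
  have hLs : y ++ x = ((Ts ++ [T]).map (fun S => o :: S)).flatten := by
    rw [ht, h5, shift_o]
  have hbal : ∀ S ∈ Ts ++ [T], BalQ S := by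
    intro S hS
    rcases List.mem_append.1 hS with hS | hS
    · exact h3 S hS
    · rw [List.mem_singleton] at hS; subst hS; exact h4
  have hLne : Ts ++ [T] ≠ [] := by simp
  generalize Ts ++ [T] = Ls at hLs hbal hLne
  by_cases hex : ∃ S ∈ Ls, ∃ u, Pat2 u ∧ u <:+: S
  · obtain ⟨S, hS, u, hu, hus⟩ := hex
    refine ⟨u, Or.inr (Or.inl hu), hfac u ?_⟩
    obtain ⟨A, B, rfl⟩ := List.append_of_mem hS
    obtain ⟨s, r, hsr⟩ := hus
    rw [hLs, ← hsr]
    refine ⟨(A.map (fun S => o :: S)).flatten ++ o :: s, r ++ (B.map (fun S => o :: S)).flatten ++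
      (((A ++ (s ++ u ++ r) :: B).map (fun S => o :: S)).flatten ++
      ((A ++ (s ++ u ++ r) :: B).map (fun S => o :: S)).flatten), by simp⟩
  · push Not at hex
    have hprof : ∀ S ∈ Ls, ∃ n, PL n S ∨ PR n S := by
      intro S hS
      rcases prof (hbal S hS) with ⟨u, hu, hus⟩ | hp
      · exact absurd hus (hex S hS u hu)
      · exact hp
    -- minimal profile
    have hne : ∃ n, ∃ S ∈ Ls, PL n S ∨ PR n S := by
      obtain ⟨S, hS⟩ := List.exists_mem_of_ne_nil Ls hLne
      obtain ⟨n, hn⟩ := hprof S hS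
      exact ⟨n, S, hS, hn⟩
    classical
    obtain ⟨S0, hS0, hP0⟩ := Nat.find_spec hne
    have hmin : ∀ n, ∀ S ∈ Ls, (PL n S ∨ PR n S) → Nat.find hne ≤ n :=
      fun n S hS hP => Nat.find_min' hne ⟨S, hS, hP⟩
    generalize Nat.find hne = n0 at hP0 hmin
    obtain ⟨A, B, hAB⟩ := List.append_of_mem hS0
    obtain ⟨S1, S2, rest, hr⟩ : ∃ S1 S2 rest, B ++ (Ls ++ Ls) = S1 :: S2 :: rest := by
      have hlen : 2 ≤ (B ++ (Ls ++ Ls)).length := by
        have : 1 ≤ Ls.length := List.length_pos_iff.2 hLne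
        simp; omega
      match hB : B ++ (Ls ++ Ls) with
      | [] => rw [hB] at hlen; simp at hlen
      | [a] => rw [hB] at hlen; simp at hlen
      | a :: b :: r => exact ⟨a, b, r, rfl⟩
    have hmem : ∀ S ∈ B ++ (Ls ++ Ls), S ∈ Ls := by
      intro S hS
      rcases List.mem_append.1 hS with hS | hS
      · rw [hAB]; simp [hS]
      · rcases List.mem_append.1 hS with hS | hS <;> exact hS
    have hS1 : S1 ∈ Ls := hmem S1 (by rw [hr]; simp)
    have hS2 : S2 ∈ Ls := hmem S2 (by rw [hr]; simp)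
    have hbig : (y ++ x) ++ ((y ++ x) ++ (y ++ x)) =
        (A.map (fun S => o :: S)).flatten ++ (o :: S0 ++ (o :: S1 ++ (o :: S2 ++
          (rest.map (fun S => o :: S)).flatten))) := by
      have e1 : (y ++ x) ++ ((y ++ x) ++ (y ++ x)) =
          ((Ls ++ (Ls ++ Ls)).map (fun S => o :: S)).flatten := by
        rw [hLs]; simp
      have e2 : Ls ++ (Ls ++ Ls) = A ++ (S0 :: (S1 :: S2 :: rest)) := by
        rw [← hr]
        conv_lhs => rw [hAB]
        conv_rhs => rw [hAB]
        simp
      rw [e1, e2]; simp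
    obtain ⟨n1, hP1⟩ := hprof S1 hS1
    obtain ⟨n2, hP2⟩ := hprof S2 hS2
    have hn1 := hmin n1 S1 hS1 hP1
    have hn2 := hmin n2 S2 hS2 hP2
    rcases hP0 with ⟨l0, hl0, hl0n, hS0e⟩ | ⟨l0, e0, hl0, he0, hl0n, hS0e⟩
    · -- S0 is of left type
      rcases Nat.lt_or_ge n0 n1 with hlt | hge
      · -- pattern 4
        obtain ⟨l1, t1, hl1, hl1n, hS1e⟩ := prof_take (k := n0 + 1) hlt hP1
        refine ⟨o :: (l0.flatten ++ o :: l1.flatten), Or.inr (Or.inr (Or.inr (Or.inl
          ⟨l0, l1, hl0, hl1, by omega, rfl⟩))), hfac _ ?_⟩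
        rw [hbig, hS0e, hS1e]
        exact ⟨(A.map (fun S => o :: S)).flatten, t1 ++ (o :: S2 ++
          (rest.map (fun S => o :: S)).flatten), by simp⟩
      · have hn1e : n1 = n0 := by omega
        subst hn1e
        rcases hP1 with ⟨l1, hl1, hl1n, hS1e⟩ | ⟨l1, e1, hl1, he1, hl1n, hS1e⟩
        · -- pattern 3
          refine ⟨o :: (l0.flatten ++ o :: (l1.flatten ++ [o])), Or.inr (Or.inr (Or.inl
            ⟨l0, l1, hl0, hl1, by omega, rfl⟩)), hfac _ ?_⟩
          rw [hbig, hS0e, hS1e]
          exact ⟨(A.map (fun S => o :: S)).flatten, S2 ++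
            (rest.map (fun S => o :: S)).flatten, by simp⟩
        · -- pattern 5 on S1, S2
          obtain ⟨l2, t2, hl2, hl2n, hS2e⟩ := prof_take (k := n1) hn2 hP2
          refine ⟨o :: (l1.flatten ++ m :: (e1.flatten ++ o :: l2.flatten)), Or.inr (Or.inr (Or.inr
            (Or.inr ⟨l1, e1, l2, hl1, he1, hl2, by omega, rfl⟩))), hfac _ ?_⟩
          rw [hbig, hS1e, hS2e]
          exact ⟨(A.map (fun S => o :: S)).flatten ++ o :: S0, t2 ++
            (rest.map (fun S => o :: S)).flatten, by simp⟩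
    · -- S0 is of right type
      obtain ⟨l1, t1, hl1, hl1n, hS1e⟩ := prof_take (k := n0) hn1 hP1
      refine ⟨o :: (l0.flatten ++ m :: (e0.flatten ++ o :: l1.flatten)), Or.inr (Or.inr (Or.inr
        (Or.inr ⟨l0, e0, l1, hl0, he0, hl1, by omega, rfl⟩))), hfac _ ?_⟩
      rw [hbig, hS0e, hS1e]
      exact ⟨(A.map (fun S => o :: S)).flatten, t1 ++ (o :: S2 ++
        (rest.map (fun S => o :: S)).flatten), by simp⟩

lemma sg_replicate (n : ℕ) (w : List Br) :
    sg (List.replicate n w).flatten = (List.replicate n (sg w)).flatten := by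
  rw [sg_flatten]; simp

/-- every nonempty word has a power containing a pattern word -/
theorem exists_pat {w : List Br} (hw : w ≠ []) :
    ∃ n u, Pat u ∧ u <:+: (List.replicate n w).flatten := by
  rcases lt_trichotomy (h w) 0 with hlt | heq | hgt
  · obtain ⟨u, hu, huw⟩ := casepos (w := sg w) (by rw [h_sg]; omega)
    refine ⟨4, sg u, Or.inr (by rw [sg_sg]; exact hu), ?_⟩
    rw [← sg_replicate] at huw
    obtain ⟨s, t, hst⟩ := huw
    refine ⟨sg t, sg s, ?_⟩
    rw [← sg_sg (List.replicate 4 w).flatten, ← hst]; simp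
  · obtain ⟨u, hu, huw⟩ := case0 hw heq
    exact ⟨3, u, Or.inl hu, huw⟩
  · obtain ⟨u, hu, huw⟩ := casepos hgt
    exact ⟨4, u, Or.inl hu, huw⟩

end Pool.Agent.H2.CFWords
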