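import Mathlib

set_option autoImplicit false

namespace Pool.Agent.H2.CFWords

/-- three letters: opening bracket, closing bracket, middle mark -/
inductive Br : Type
  | o | c | m
deriving DecidableEq

instance : Fintype Br := ⟨{Br.o, Br.c, Br.m}, by intro x; cases x <;> simp⟩

open Br

def hv : Br → ℤ
  | o => 1
  | c => -1
  | m => 0

def h (u : List Br) : ℤ := (u.map hv).sum

@[simp] lemma h_nil : h [] = 0 := rfl
@[simp] lemma h_cons (a : Br) (u : List Br) : h (a :: u) = hv a + h u := by simp [h]
@[simp] lemma h_append (u v : List Br) : h (u ++ v) = h u + h v := by simp [h]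
@[simp] lemma hv_o : hv o = 1 := rfl
@[simp] lemma hv_c : hv c = -1 := rfl
@[simp] lemma hv_m : hv m = 0 := rfl

/-- all prefixes have nonnegative height -/
def Nn (u : List Br) : Prop := ∀ p, p <+: u → 0 ≤ h p

def BalQ (u : List Br) : Prop := h u = 0 ∧ Nn u

def Prm (p : List Br) : Prop := ∃ q, BalQ q ∧ p = o :: (q ++ [c])

lemma prefix_append_cases {a b p : List Br} (hp : p <+: a ++ b) :
    p <+: a ∨ ∃ q, q <+: b ∧ p = a ++ q := by
  obtain ⟨t, ht⟩ := hp
  rw [List.append_eq_append_iff] at ht
  rcases ht with ⟨a', h1, h2⟩ | ⟨c', h1, h2⟩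
  · left; exact ⟨a', h1.symm⟩
  · right; exact ⟨c', ⟨t, h2.symm⟩, h1⟩

lemma BalQ.nil : BalQ [] := by
  refine ⟨rfl, fun p hp => ?_⟩
  rw [List.prefix_nil] at hp
  rw [hp]; simp

lemma BalQ.append {u v : List Br} (hu : BalQ u) (hv' : BalQ v) : BalQ (u ++ v) := by
  refine ⟨by rw [h_append, hu.1, hv'.1]; rfl, fun p hp => ?_⟩
  rcases prefix_append_cases hp with hp | ⟨q, hq, rfl⟩
  · exact hu.2 p hp
  · rw [h_append, hu.1, zero_add]; exact hv'.2 q hq

lemma BalQ.mid : BalQ [m] := by
  refine ⟨by simp, fun p hp => ?_⟩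
  rcases List.prefix_cons_iff.1 hp with rfl | ⟨t, rfl, ht⟩
  · simp
  · rw [List.prefix_nil] at ht; subst ht; simp

lemma BalQ.prm {p : List Br} (hp : Prm p) : BalQ p := by
  obtain ⟨q, hq, rfl⟩ := hp
  refine ⟨by simp [hq.1], fun r hr => ?_⟩
  rcases List.prefix_cons_iff.1 hr with rfl | ⟨t, rfl, ht⟩
  · simp
  · rcases prefix_append_cases ht with ht | ⟨s, hs, rfl⟩
    · have := hq.2 t ht
      simp; omega
    · rcases List.prefix_cons_iff.1 hs with rfl | ⟨t', rfl, ht'⟩
      · simp [hq.1]
      · rw [List.prefix_nil] at ht'; subst ht'; simp [hq.1]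

lemma prm_prefix_pos {p s : List Br} (hp : Prm p) (hs : s <+: p) (h0 : s ≠ []) (h1 : s ≠ p) :
    0 < h s := by
  obtain ⟨q, hq, rfl⟩ := hp
  rcases List.prefix_cons_iff.1 hs with rfl | ⟨t, rfl, ht⟩
  · exact absurd rfl h0
  · rcases List.prefix_concat_iff.1 ht with rfl | ht
    · exact absurd rfl h1
    · have := hq.2 t ht
      simp; omega

lemma prm_ne {p : List Br} (hp : Prm p) : p ≠ [] := by
  obtain ⟨q, _, rfl⟩ := hp; simp

lemma prm_uniq {p p' x y : List Br} (hp : Prm p) (hp' : Prm p') (he : p ++ x = p' ++ y) :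
    p = p' ∧ x = y := by
  have key : p = p' := by
    rw [List.append_eq_append_iff] at he
    rcases he with ⟨a', h1, h2⟩ | ⟨c', h1, h2⟩
    · by_contra hne
      have := prm_prefix_pos hp' ⟨a', h1.symm⟩ (prm_ne hp) hne
      rw [(BalQ.prm hp).1] at this
      exact lt_irrefl _ this
    · by_contra hne
      have := prm_prefix_pos hp ⟨c', h1.symm⟩ (prm_ne hp') (fun h => hne h.symm)
      rw [(BalQ.prm hp').1] at this
      exact lt_irrefl _ this
  refine ⟨key, ?_⟩
  rw [key] at he
  exact List.append_cancel_left he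

def AllP (l : List (List Br)) : Prop := ∀ p ∈ l, Prm p

lemma AllP.nil : AllP [] := by intro p hp; simp at hp
lemma AllP.cons {p : List Br} {l : List (List Br)} (hp : Prm p) (hl : AllP l) : AllP (p :: l) := by
  intro q hq
  rcases List.mem_cons.1 hq with rfl | hq
  · exact hp
  · exact hl q hq
lemma AllP.append {l l' : List (List Br)} (hl : AllP l) (hl' : AllP l') : AllP (l ++ l') := by
  intro q hq
  rcases List.mem_append.1 hq with hq | hq
  · exact hl q hq
  · exact hl' q hq
lemma AllP.head {p : List Br} {l : List (List Br)} (hl : AllP (p :: l)) : Prm p :=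
  hl p List.mem_cons_self
lemma AllP.tail {p : List Br} {l : List (List Br)} (hl : AllP (p :: l)) : AllP l :=
  fun q hq => hl q (List.mem_cons_of_mem _ hq)

lemma parse {l l' : List (List Br)} {x y : List Br} (hl : AllP l) (hl' : AllP l')
    (he : l.flatten ++ x = l'.flatten ++ y) :
    (∃ l2, l' = l ++ l2 ∧ x = l2.flatten ++ y) ∨ (∃ l2, l = l' ++ l2 ∧ y = l2.flatten ++ x) := by
  induction l generalizing l' with
  | nil => left; exact ⟨l', rfl, by simpa using he⟩
  | cons p t ih =>
    cases l' with
    | nil => right; exact ⟨p :: t, rfl, by simpa using he.symm⟩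
    | cons p' t' =>
      rw [List.flatten_cons, List.flatten_cons, List.append_assoc, List.append_assoc] at he
      obtain ⟨rfl, he'⟩ := prm_uniq hl.head hl'.head he
      rcases ih hl.tail hl'.tail he' with ⟨l2, rfl, h2⟩ | ⟨l2, rfl, h2⟩
      · left; exact ⟨l2, rfl, h2⟩
      · right; exact ⟨l2, rfl, h2⟩

lemma flatten_head {l : List (List Br)} {x y : List Br} {a : Br} (hl : AllP l) (ha : a ≠ o)
    (he : a :: x = l.flatten ++ y) : l = [] ∧ a :: x = y := by
  cases l with
  | nil => exact ⟨rfl, by simpa using he⟩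
  | cons p t =>
    obtain ⟨q, _, hq⟩ := hl.head
    rw [List.flatten_cons, hq] at he
    simp at he
    exact absurd he.1 ha

/-- items -/
inductive Items : ℕ → List Br → Prop
  | nil : Items 0 []
  | mid {n : ℕ} {x : List Br} (hx : Items n x) : Items n (m :: x)
  | prm {n : ℕ} {p x : List Br} (hp : Prm p) (hx : Items n x) : Items (n + 1) (p ++ x)

lemma Items.append {n k : ℕ} {x y : List Br} (hx : Items n x) (hy : Items k y) :
    Items (n + k) (x ++ y) := by
  induction hx with
  | nil => simpa using hy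
  | mid _ ih => exact Items.mid ih
  | @prm n p x hp _ ih =>
    rw [List.append_assoc, show n + 1 + k = n + k + 1 by ring]
    exact Items.prm hp ih

lemma Items.balQ {n : ℕ} {x : List Br} (hx : Items n x) : BalQ x := by
  induction hx with
  | nil => exact BalQ.nil
  | mid _ ih => exact BalQ.mid.append ih
  | prm hp _ ih => exact (BalQ.prm hp).append ih

lemma Items.unique {n k : ℕ} {x : List Br} (hx : Items n x) (hy : Items k x) : n = k := by
  induction hx generalizing k with
  | nil =>
    generalize hz : ([] : List Br) = z at hy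
    cases hy with
    | nil => rfl
    | mid _ => simp at hz
    | prm hp _ =>
      exact absurd (List.append_eq_nil_iff.1 hz.symm).1 (prm_ne hp)
  | @mid n x hx ih =>
    generalize hz : (m :: x : List Br) = z at hy
    cases hy with
    | nil => simp at hz
    | mid hy' =>
      obtain ⟨_, rfl⟩ := List.cons.inj hz
      exact ih hy'
    | prm hp _ =>
      obtain ⟨q, _, rfl⟩ := hp
      simp at hz
  | @prm n p x hp hx ih =>
    generalize hz : (p ++ x : List Br) = z at hy
    cases hy with
    | nil => exact absurd (List.append_eq_nil_iff.1 hz).1 (prm_ne hp)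
    | mid _ =>
      obtain ⟨q, _, rfl⟩ := hp
      simp at hz
    | prm hp' hy' =>
      obtain ⟨_, rfl⟩ := prm_uniq hp hp' hz
      rw [ih hy']

lemma Items.of_allP {l : List (List Br)} (hl : AllP l) : Items l.length l.flatten := by
  induction l with
  | nil => exact Items.nil
  | cons p t ih =>
    rw [List.flatten_cons, List.length_cons]
    exact Items.prm hl.head (ih hl.tail)

/-! ### the words v n -/

def lr : ℕ → List (List Br) × List (List Br)
  | 0 => ([], [])
  | n + 1 => ((lr n).1 ++ [o :: ((lr n).1.flatten ++ m :: ((lr n).2.flatten ++ [c]))],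
      (o :: ((lr n).1.flatten ++ m :: ((lr n).2.flatten ++ [c]))) :: (lr n).2)

def Lft (n : ℕ) : List (List Br) := (lr n).1
def Rgt (n : ℕ) : List (List Br) := (lr n).2

def v (n : ℕ) : List Br := o :: ((Lft n).flatten ++ m :: ((Rgt n).flatten ++ [c]))

lemma Lft_zero : Lft 0 = [] := rfl
lemma Rgt_zero : Rgt 0 = [] := rfl
lemma Lft_succ (n : ℕ) : Lft (n + 1) = Lft n ++ [v n] := rfl
lemma Rgt_succ (n : ℕ) : Rgt (n + 1) = v n :: Rgt n := rfl

lemma Lft_len (n : ℕ) : (Lft n).length = n := by
  induction n with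
  | zero => rfl
  | succ n ih => rw [Lft_succ, List.length_append, ih]; rfl

lemma Rgt_len (n : ℕ) : (Rgt n).length = n := by
  induction n with
  | zero => rfl
  | succ n ih => rw [Rgt_succ, List.length_cons, ih]

lemma Lft_eq (n : ℕ) : Lft n = (List.range n).map v := by
  induction n with
  | zero => rfl
  | succ n ih => rw [Lft_succ, ih, List.range_succ, List.map_append]; rfl

lemma Rgt_eq (n : ℕ) : Rgt n = (List.range n).reverse.map v := by
  induction n with
  | zero => rfl
  | succ n ih => rw [Rgt_succ, ih, List.range_succ, List.reverse_append]; rfl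

lemma allP_v (n : ℕ) : AllP (Lft n) ∧ AllP (Rgt n) ∧ Prm (v n) := by
  have key : ∀ n, AllP (Lft n) → AllP (Rgt n) → Prm (v n) := by
    intro n h1 h2
    refine ⟨(Lft n).flatten ++ m :: (Rgt n).flatten, ?_, ?_⟩
    · exact ((Items.of_allP h1).append (Items.mid (Items.of_allP h2))).balQ
    · simp [v]
  induction n with
  | zero => exact ⟨AllP.nil, AllP.nil, key 0 AllP.nil AllP.nil⟩
  | succ n ih =>
    obtain ⟨h1, h2, h3⟩ := ih
    have h4 : AllP (Lft (n + 1)) := by
      rw [Lft_succ]; exact h1.append (AllP.cons h3 AllP.nil)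
    have h5 : AllP (Rgt (n + 1)) := by
      rw [Rgt_succ]; exact AllP.cons h3 h2
    exact ⟨h4, h5, key _ h4 h5⟩

lemma items_v (n : ℕ) : Items (2 * n) ((Lft n).flatten ++ m :: (Rgt n).flatten) := by
  have h1 := (Items.of_allP (allP_v n).1).append (Items.mid (Items.of_allP (allP_v n).2.1))
  rw [Lft_len, Rgt_len] at h1
  rw [two_mul]
  exact h1

lemma v_eq' (n : ℕ) : v n = o :: (((Lft n).flatten ++ m :: (Rgt n).flatten) ++ [c]) := by
  simp [v]

/-- what follows a node -/
def Tail (i : ℕ) (γ : List Br) : Prop :=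
  ∃ t a δ, a ≠ o ∧ (∀ p ∈ t, ∃ j, j ≠ i ∧ p = v j) ∧ γ = (List.flatten t) ++ a :: δ

lemma Tail.append {i : ℕ} {γ : List Br} (hT : Tail i γ) (x : List Br) : Tail i (γ ++ x) := by
  obtain ⟨t, a, δ, ha, ht, rfl⟩ := hT
  exact ⟨t, a, δ ++ x, ha, ht, by simp⟩

lemma occ_flatten (l : List (List Br)) (a : Br) (α β : List Br) (he : l.flatten = α ++ a :: β) :
    ∃ l1 p l2 α1 β1, l = l1 ++ p :: l2 ∧ p = α1 ++ a :: β1 ∧ β = β1 ++ l2.flatten ∧
      α = l1.flatten ++ α1 := by
  induction l generalizing α with
  | nil => simp at he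
  | cons p t ih =>
    rw [List.flatten_cons, List.append_eq_append_iff] at he
    rcases he with ⟨a', h1, h2⟩ | ⟨c', h1, h2⟩
    · obtain ⟨l1, p', l2, α1, β1, rfl, h3, h4, h5⟩ := ih a' h2
      exact ⟨p :: l1, p', l2, α1, β1, rfl, h3, h4, by rw [h1, h5]; simp⟩
    · cases c' with
      | nil =>
        simp at h2
        obtain ⟨l1, p', l2, α1, β1, rfl, h3, h4, h5⟩ := ih [] (by simpa using h2.symm)
        refine ⟨p :: l1, p', l2, α1, β1, rfl, h3, h4, ?_⟩
        have h6 : l1.flatten ++ α1 = [] := h5.symm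
        rw [List.flatten_cons, List.append_assoc, h6, List.append_nil]
        simpa using h1.symm
      | cons b c'' =>
        rw [List.cons_append] at h2
        obtain ⟨rfl, h2'⟩ := List.cons.inj h2
        exact ⟨[], p, t, α, c'', rfl, h1, h2', by simp⟩

lemma Lft_split {N : ℕ} {l1 l2 : List (List Br)} {p : List Br} (he : Lft N = l1 ++ p :: l2) :
    ∃ i, i < N ∧ p = v i ∧ ∀ q ∈ l2, ∃ j, j ≠ i ∧ q = v j := by
  rw [Lft_eq, List.map_eq_append_iff] at he
  obtain ⟨r1, r2, hr, _, h2⟩ := he
  rw [List.map_eq_cons_iff] at h2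
  obtain ⟨i, r3, rfl, hi, h3⟩ := h2
  have hpw : List.Pairwise (· < ·) (r1 ++ i :: r3) := hr ▸ List.pairwise_lt_range
  have hmem : i ∈ List.range N := by rw [hr]; simp
  refine ⟨i, List.mem_range.1 hmem, hi.symm, ?_⟩
  intro q hq
  rw [← h3] at hq
  obtain ⟨j, hj, rfl⟩ := List.mem_map.1 hq
  refine ⟨j, ?_, rfl⟩
  have h4 := (List.pairwise_append.1 hpw).2.1
  have h5 := (List.pairwise_cons.1 h4).1 j hj
  omega

lemma Rgt_split {N : ℕ} {l1 l2 : List (List Br)} {p : List Br} (he : Rgt N = l1 ++ p :: l2) :
    ∃ i, i < N ∧ p = v i ∧ i + l1.length + 1 = N ∧ l2 = Rgt i ∧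
      ∀ q ∈ l2, ∃ j, j ≠ i ∧ q = v j := by
  induction N generalizing l1 with
  | zero => simp [Rgt_zero] at he
  | succ N ih =>
    rw [Rgt_succ] at he
    cases l1 with
    | nil =>
      simp at he
      obtain ⟨rfl, rfl⟩ := he
      refine ⟨N, Nat.lt_succ_self N, rfl, by simp, rfl, ?_⟩
      intro q hq
      rw [Rgt_eq] at hq
      obtain ⟨j, hj, rfl⟩ := List.mem_map.1 hq
      rw [List.mem_reverse, List.mem_range] at hj
      exact ⟨j, by omega, rfl⟩
    | cons p' l1' =>
      simp at he
      obtain ⟨_, he⟩ := he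
      obtain ⟨i, h1, h2, h3, h4, h5⟩ := ih he
      exact ⟨i, by omega, h2, by simp; omega, h4, h5⟩

/-- every opening bracket inside `v N` opens a node -/
lemma occ_o : ∀ (N : ℕ) (α β : List Br), v N = α ++ o :: β →
    α = [] ∨ ∃ i γ, o :: β = v i ++ γ ∧ Tail i γ := by
  intro N
  induction N using Nat.strong_induction_on with
  | _ N ih =>
    intro α β he
    cases α with
    | nil => left; rfl
    | cons a α' =>
      right
      rw [v, List.cons_append] at he
      obtain ⟨_, he⟩ := List.cons.inj he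
      rw [List.append_eq_append_iff] at he
      -- case distinction: the bracket lies in the left part or later
      have hcase : (∃ β1, (Lft N).flatten = α' ++ o :: β1 ∧
          β = β1 ++ m :: ((Rgt N).flatten ++ [c])) ∨
          (∃ α1, m :: ((Rgt N).flatten ++ [c]) = α1 ++ o :: β) := by
        rcases he with ⟨a', h1, h2⟩ | ⟨c', h1, h2⟩
        · right; exact ⟨a', h2⟩
        · cases c' with
          | nil => right; exact ⟨[], by simpa using h2.symm⟩
          | cons b c'' =>
            rw [List.cons_append] at h2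
            obtain ⟨rfl, h2'⟩ := List.cons.inj h2
            left; exact ⟨c'', h1, h2'⟩
      rcases hcase with ⟨β1, h1, h2⟩ | ⟨α1, h1⟩
      · obtain ⟨l1, p, l2, α2, β2, h3, h4, h5, _⟩ := occ_flatten _ _ _ _ h1
        obtain ⟨i, hi, hpi, hl2⟩ := Lft_split h3
        rw [hpi] at h4
        rcases ih i hi α2 β2 h4 with hnil | ⟨i', γ', h6, hT⟩
        · subst hnil
          refine ⟨i, l2.flatten ++ m :: ((Rgt N).flatten ++ [c]), ?_, l2, m, _, by decide, hl2, rfl⟩
          rw [h2, h5, h4]; simp
        · refine ⟨i', γ' ++ (l2.flatten ++ m :: ((Rgt N).flatten ++ [c])), ?_, hT.append _⟩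
          rw [← List.append_assoc, ← h6, h2, h5]; simp
      · cases α1 with
        | nil => simp at h1
        | cons b α1 =>
          rw [List.cons_append] at h1
          obtain ⟨_, h1⟩ := List.cons.inj h1
          have h1' : ∃ β1, (Rgt N).flatten = α1 ++ o :: β1 ∧ β = β1 ++ [c] := by
            rw [List.append_eq_append_iff] at h1
            rcases h1 with ⟨a', h2, h3⟩ | ⟨c', h2, h3⟩
            · cases a' with
              | nil => simp at h3
              | cons b' a'' => simp at h3
            · cases c' with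
              | nil => simp at h3
              | cons b' c'' =>
                rw [List.cons_append] at h3
                obtain ⟨rfl, h3'⟩ := List.cons.inj h3
                exact ⟨c'', h2, h3'⟩
          obtain ⟨β1, h2, h3⟩ := h1'
          obtain ⟨l1, p, l2, α2, β2, h4, h5, h6, _⟩ := occ_flatten _ _ _ _ h2
          obtain ⟨i, hi, hpi, _, _, hl2⟩ := Rgt_split h4
          rw [hpi] at h5
          rcases ih i hi α2 β2 h5 with hnil | ⟨i', γ', h7, hT⟩
          · subst hnil
            refine ⟨i, l2.flatten ++ [c], ?_, l2, c, [], by decide, hl2, rfl⟩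
            rw [h3, h6, h5]; simp
          · refine ⟨i', γ' ++ (l2.flatten ++ [c]), ?_, hT.append _⟩
            rw [← List.append_assoc, ← h7, h3, h6]; simp

/-- what follows a middle mark -/
lemma occ_m : ∀ (N : ℕ) (α β : List Br), v N = α ++ m :: β →
    ∃ i δ, β = (Rgt i).flatten ++ c :: δ := by
  intro N
  induction N using Nat.strong_induction_on with
  | _ N ih =>
    intro α β he
    cases α with
    | nil => simp [v] at he
    | cons a α' =>
      rw [v, List.cons_append] at he
      obtain ⟨_, he⟩ := List.cons.inj he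
      rw [List.append_eq_append_iff] at he
      have hcase : (∃ β1, (Lft N).flatten = α' ++ m :: β1 ∧
          β = β1 ++ m :: ((Rgt N).flatten ++ [c])) ∨
          (∃ α1, m :: ((Rgt N).flatten ++ [c]) = α1 ++ m :: β) := by
        rcases he with ⟨a', h1, h2⟩ | ⟨c', h1, h2⟩
        · right; exact ⟨a', h2⟩
        · cases c' with
          | nil => right; exact ⟨[], by simpa using h2.symm⟩
          | cons b c'' =>
            rw [List.cons_append] at h2
            obtain ⟨rfl, h2'⟩ := List.cons.inj h2
            left; exact ⟨c'', h1, h2'⟩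
      rcases hcase with ⟨β1, h1, h2⟩ | ⟨α1, h1⟩
      · obtain ⟨l1, p, l2, α2, β2, h3, h4, h5, _⟩ := occ_flatten _ _ _ _ h1
        obtain ⟨i, hi, hpi, _⟩ := Lft_split h3
        rw [hpi] at h4
        obtain ⟨i', δ, h6⟩ := ih i hi α2 β2 h4
        refine ⟨i', δ ++ (l2.flatten ++ m :: ((Rgt N).flatten ++ [c])), ?_⟩
        rw [h2, h5, h6]; simp
      · cases α1 with
        | nil =>
          simp at h1
          exact ⟨N, [], h1.symm⟩
        | cons b α1 =>
          rw [List.cons_append] at h1
          obtain ⟨_, h1⟩ := List.cons.inj h1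
          have h1' : ∃ β1, (Rgt N).flatten = α1 ++ m :: β1 ∧ β = β1 ++ [c] := by
            rw [List.append_eq_append_iff] at h1
            rcases h1 with ⟨a', h2, h3⟩ | ⟨c', h2, h3⟩
            · cases a' with
              | nil => simp at h3
              | cons b' a'' => simp at h3
            · cases c' with
              | nil => simp at h3
              | cons b' c'' =>
                rw [List.cons_append] at h3
                obtain ⟨rfl, h3'⟩ := List.cons.inj h3
                exact ⟨c'', h2, h3'⟩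
          obtain ⟨β1, h2, h3⟩ := h1'
          obtain ⟨l1, p, l2, α2, β2, h4, h5, h6, _⟩ := occ_flatten _ _ _ _ h2
          obtain ⟨i, hi, hpi, _⟩ := Rgt_split h4
          rw [hpi] at h5
          obtain ⟨i', δ, h7⟩ := ih i hi α2 β2 h5
          refine ⟨i', δ ++ (l2.flatten ++ [c]), ?_⟩
          rw [h3, h6, h7]; simp

end Pool.Agent.H2.CFWords
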