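import Mathlib

set_option autoImplicit false

namespace Pool.Agent.H2.WalkAlg

open Finset

/-- weight of the vertex from which `a` steps -2 and `b` steps +4 lead to `2m+1` -/
noncomputable def w (m a b : ℕ) : ℝ :=
  1 / ((2 * (m : ℝ) + 1) ^ 2 - ((2 * (m : ℝ) + 1) + 2 * a - 4 * b) ^ 2)

noncomputable def R (m : ℕ) : ℕ → ℕ → ℝ
  | 0, 0 => 1
  | a + 1, 0 => w m (a + 1) 0 * R m a 0
  | 0, b + 1 => w m 0 (b + 1) * R m 0 b
  | a + 1, b + 1 => w m (a + 1) (b + 1) * (R m a (b + 1) + R m (a + 1) b)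

lemma R00 (m : ℕ) : R m 0 0 = 1 := by rw [R]
lemma Ra0 (m a : ℕ) : R m (a + 1) 0 = w m (a + 1) 0 * R m a 0 := by rw [R]
lemma R0b (m b : ℕ) : R m 0 (b + 1) = w m 0 (b + 1) * R m 0 b := by rw [R]
lemma Rab (m a b : ℕ) : R m (a + 1) (b + 1) =
    w m (a + 1) (b + 1) * (R m a (b + 1) + R m (a + 1) b) := by rw [R]

lemma w0 (m b : ℕ) : w m 0 b = 1 / (8 * (b : ℝ) * (2 * m + 1 - 2 * b)) := by
  unfold w; congr 1; push_cast; ring
lemma w1 (m b : ℕ) : w m 1 b = 1 / (8 * (2 * (b : ℝ) - 1) * (m + 1 - b)) := by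
  unfold w; congr 1; push_cast; ring
lemma w2 (m b : ℕ) : w m 2 b = 1 / (8 * ((b : ℝ) - 1) * (2 * m + 3 - 2 * b)) := by
  unfold w; congr 1; push_cast; ring
lemma w3 (m b : ℕ) : w m 3 b = 1 / (8 * (2 * (b : ℝ) - 3) * (m + 2 - b)) := by
  unfold w; congr 1; push_cast; ring

lemma w3_w0 (m b k : ℕ) (h : b + k = m + 2) : w m 3 b = w m 0 k := by
  have h' : (b : ℝ) + k = m + 2 := by exact_mod_cast h
  have hk : (k : ℝ) = m + 2 - b := by linarith
  rw [w3, w0, hk]; congr 1; ring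

lemma w2_w1 (m b k : ℕ) (h : b + k = m + 2) : w m 2 b = w m 1 k := by
  have h' : (b : ℝ) + k = m + 2 := by exact_mod_cast h
  have hk : (k : ℝ) = m + 2 - b := by linarith
  rw [w2, w1, hk]; congr 1; ring

lemma odd_ne (a b : ℕ) : (2 * (a : ℝ) + 1 - 2 * b) ≠ 0 := by
  intro h
  have : (2 * (a : ℝ) + 1) = 2 * b := by linarith
  have h2 : 2 * a + 1 = 2 * b := by exact_mod_cast this
  omega

lemma tele1 (m : ℕ) : ∀ b k : ℕ, b + k + 1 = m + 2 →
    R m 3 b * R m 0 k = ∑ i ∈ range (b + 1), R m 2 i * R m 0 (m + 2 - i) := by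
  intro b
  induction b with
  | zero =>
    intro k hk
    rw [Finset.sum_range_one, Ra0, show m + 2 - 0 = k + 1 by omega, R0b,
      w3_w0 m 0 (k + 1) (by omega)]
    ring
  | succ b ih =>
    intro k hk
    rw [Finset.sum_range_succ, ← ih (k + 1) (by omega), Rab, show m + 2 - (b + 1) = k + 1 by omega,
      R0b, w3_w0 m (b + 1) (k + 1) (by omega)]
    ring

lemma tele2 (m : ℕ) : ∀ b k : ℕ, b + k + 1 = m + 2 →
    ∑ i ∈ range (b + 1), R m 2 i * R m 0 (m + 2 - i) =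
      ∑ i ∈ range (b + 1), R m 1 i * R m 1 (m + 2 - i) - R m 2 b * R m 1 k := by
  intro b
  induction b with
  | zero =>
    intro k hk
    rw [Finset.sum_range_one, Finset.sum_range_one, show m + 2 - 0 = k + 1 by omega]
    rw [Ra0 m 1, Rab m 0 k, w2_w1 m 0 (k + 1) (by omega)]
    ring
  | succ b ih =>
    intro k hk
    rw [Finset.sum_range_succ, ih (k + 1) (by omega), Finset.sum_range_succ (n := b + 1),
      show m + 2 - (b + 1) = k + 1 by omega]
    rw [Rab m 1 b, Rab m 0 k, w2_w1 m (b + 1) (k + 1) (by omega)]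
    ring

lemma B3_eq (m : ℕ) : R m 2 (m + 2) + R m 3 (m + 1) =
    ∑ i ∈ range (m + 3), R m 1 i * R m 1 (m + 2 - i) := by
  have h1 := tele1 m (m + 1) 0 (by omega)
  have h2 := tele2 m (m + 1) 0 (by omega)
  rw [R00, mul_one] at h1
  rw [Finset.sum_range_succ, h1, h2, show m + 2 - (m + 2) = 0 by omega]
  rw [Rab m 1 (m + 1), Ra0 m 0, R00, w2_w1 m (m + 2) 0 (by omega)]
  ring

/-- row one -/
lemma row1 (m : ℕ) (hm : 1 ≤ m) : ∀ b : ℕ, b ≤ m →
    R m 1 b = R m 0 b * ((2 * (b : ℝ) - m) / (8 * m * (m + 1))) := by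
  have hm' : (m : ℝ) ≠ 0 := by positivity
  have hm1 : (m : ℝ) + 1 ≠ 0 := by positivity
  intro b
  induction b with
  | zero =>
    intro _
    rw [Ra0, R00, w1]
    push_cast
    field_simp
    ring
  | succ b ih =>
    intro hb
    rw [Rab, ih (by omega), R0b, w1, w0]
    have h1 : (2 * (m : ℝ) + 1 - 2 * ((b + 1 : ℕ) : ℝ)) ≠ 0 := odd_ne m (b + 1)
    have h2 : ((m : ℝ) - b) ≠ 0 := by
      intro h
      have h3 : (m : ℝ) = b := by linarith
      have h4 : m = b := by exact_mod_cast h3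
      omega
    have h3 : (2 * (b : ℝ) + 1) ≠ 0 := by positivity
    have h4 : ((b : ℝ) + 1) ≠ 0 := by positivity
    push_cast at h1 ⊢
    have h1' : (2 * (m : ℝ) - 1 - 2 * b) ≠ 0 := by
      intro h; apply h1; linarith
    have e1 : (2 * (m : ℝ) + 1 - 2 * (b + 1)) = 2 * (m : ℝ) - 1 - 2 * b := by ring
    have e2 : (2 * ((b : ℝ) + 1) - 1) = 2 * b + 1 := by ring
    have e3 : ((m : ℝ) + 1 - (b + 1)) = m - b := by ring
    rw [e1, e2, e3]
    field_simp
    ring

lemma row1_m1 (m : ℕ) : R m 1 (m + 1) = 0 := by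
  rw [Rab, w1]
  push_cast
  simp

lemma row1_m2 (m : ℕ) : R m 1 (m + 2) = - R m 0 (m + 2) / (8 * (2 * m + 3)) := by
  rw [Rab m 0 (m + 1), row1_m1, w1]
  push_cast
  have h : (2 * (m : ℝ) + 3) ≠ 0 := by positivity
  have e : (8 * (2 * ((m : ℝ) + 1 + 1) - 1) * (m + 1 - (m + 1 + 1))) = -(8 * (2 * m + 3)) := by ring
  rw [e]
  field_simp
  ring

/-- coefficients of (1-x)^(3/2) -/
noncomputable def f : ℕ → ℝ
  | 0 => 1
  | b + 1 => f b * ((2 * (b : ℝ) - 3) / (2 * (b + 1)))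

lemma f_rec (b : ℕ) : ((b : ℝ) + 1) * f (b + 1) = (b - 3 / 2) * f b := by
  rw [f]
  have : ((b : ℝ) + 1) ≠ 0 := by positivity
  field_simp

lemma odd_ne3 (b : ℕ) : (2 * (b : ℝ) - 3) ≠ 0 := by
  intro h
  have h1 : (2 * (b : ℝ)) = 3 := by linarith
  have h2 : 2 * b = 3 := by exact_mod_cast h1
  omega

lemma f_ne (b : ℕ) : f b ≠ 0 := by
  induction b with
  | zero => rw [f]; exact one_ne_zero
  | succ b ih =>
    rw [f]
    exact mul_ne_zero ih (div_ne_zero (odd_ne3 b) (by positivity))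

noncomputable def G (N : ℕ) : ℝ := ∑ p ∈ antidiagonal N, f p.1 * f p.2

noncomputable def H (N : ℕ) : ℝ := ∑ p ∈ antidiagonal N, ((p.1 : ℝ) * f p.1) * ((p.2 : ℝ) * f p.2)

lemma half (N : ℕ) : ∑ p ∈ antidiagonal N, ((p.1 : ℝ) * f p.1) * f p.2 = (N : ℝ) / 2 * G N := by
  have h1 : ∑ p ∈ antidiagonal N, ((p.1 : ℝ) * f p.1) * f p.2 =
      ∑ p ∈ antidiagonal N, f p.1 * ((p.2 : ℝ) * f p.2) := by
    rw [← Finset.Nat.sum_antidiagonal_swap]
    apply Finset.sum_congr rfl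
    intro p _
    simp only [Prod.fst_swap, Prod.snd_swap]
    ring
  have h2 : ∑ p ∈ antidiagonal N, ((p.1 : ℝ) * f p.1) * f p.2 +
      ∑ p ∈ antidiagonal N, f p.1 * ((p.2 : ℝ) * f p.2) = (N : ℝ) * G N := by
    rw [← Finset.sum_add_distrib, G, Finset.mul_sum]
    apply Finset.sum_congr rfl
    intro p hp
    have : (p.1 : ℝ) + p.2 = N := by exact_mod_cast (Finset.HasAntidiagonal.mem_antidiagonal.1 hp)
    rw [← this]; ring
  rw [← h1] at h2
  linarith

lemma G_rec (N : ℕ) : ((N : ℝ) + 1) * G (N + 1) = (N - 3) * G N := by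
  have h1 := half (N + 1)
  rw [Finset.Nat.sum_antidiagonal_succ] at h1
  push_cast at h1
  simp only [f_rec] at h1
  have h2 : ∑ p ∈ antidiagonal N, ((p.1 : ℝ) - 3 / 2) * f p.1 * f p.2 =
      (N : ℝ) / 2 * G N - 3 / 2 * G N := by
    rw [← half N, G, Finset.mul_sum, ← Finset.sum_sub_distrib]
    apply Finset.sum_congr rfl
    intro p _
    ring
  rw [h2] at h1
  linarith

lemma H_rec (N : ℕ) : H (N + 1) = H N - 3 * (N : ℝ) / 4 * G N := by
  rw [H, Finset.Nat.sum_antidiagonal_succ]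
  push_cast
  simp only [f_rec]
  have h3 : ∑ p ∈ antidiagonal N, f p.1 * ((p.2 : ℝ) * f p.2) = (N : ℝ) / 2 * G N := by
    rw [← half N, ← Finset.Nat.sum_antidiagonal_swap]
    apply Finset.sum_congr rfl
    intro p _
    simp only [Prod.fst_swap, Prod.snd_swap]
    ring
  have h2 : ∑ p ∈ antidiagonal N, ((p.1 : ℝ) - 3 / 2) * f p.1 * ((p.2 : ℝ) * f p.2) =
      H N - 3 / 2 * ((N : ℝ) / 2 * G N) := by
    rw [← h3, H, Finset.mul_sum, ← Finset.sum_sub_distrib]
    apply Finset.sum_congr rfl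
    intro p _
    ring
  rw [h2]
  ring

lemma G0 : G 0 = 1 := by simp [G, f]
lemma H0 : H 0 = 0 := by simp [H]
lemma G1 : G 1 = -3 := by have := G_rec 0; rw [G0] at this; push_cast at this; linarith
lemma G2 : G 2 = 3 := by have := G_rec 1; rw [G1] at this; push_cast at this; linarith
lemma G3 : G 3 = -1 := by have := G_rec 2; rw [G2] at this; push_cast at this; linarith
lemma G4 : G 4 = 0 := by have := G_rec 3; rw [G3] at this; push_cast at this; linarith
lemma H1 : H 1 = 0 := by have := H_rec 0; rw [G0, H0] at this; push_cast at this; linarith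
lemma H2 : H 2 = 9 / 4 := by have := H_rec 1; rw [G1, H1] at this; push_cast at this; linarith
lemma H3 : H 3 = -9 / 4 := by have := H_rec 2; rw [G2, H2] at this; push_cast at this; linarith
lemma H4 : H 4 = 0 := by have := H_rec 3; rw [G3, H3] at this; push_cast at this; linarith

lemma GH (p : ℕ) : G (p + 4) = 0 ∧ H (p + 4) = 0 := by
  induction p with
  | zero => exact ⟨G4, H4⟩
  | succ p ih =>
    have h1 := G_rec (p + 4)
    have h2 := H_rec (p + 4)
    rw [ih.1, ih.2] at h2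
    rw [ih.1, mul_zero] at h1
    refine ⟨?_, ?_⟩
    · have : (((p + 4 : ℕ) : ℝ) + 1) ≠ 0 := by positivity
      have h3 := (mul_eq_zero.1 h1).resolve_left this
      rw [show p + 1 + 4 = p + 4 + 1 by ring]
      exact h3
    · rw [show p + 1 + 4 = p + 4 + 1 by ring, h2]; ring

lemma relK (m : ℕ) : ∀ b k : ℕ, b + k = m + 2 →
    R m 0 b * R m 0 k * f (m + 2) = R m 0 (m + 2) * (f b * f k) := by
  intro b
  induction b with
  | zero =>
    intro k hk
    have : k = m + 2 := by omega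
    subst this
    rw [R00, f]; ring
  | succ b ih =>
    intro k hk
    have h := ih (k + 1) (by omega)
    have hfk : f (k + 1) = f k * ((2 * (k : ℝ) - 3) / (2 * (k + 1))) := by rw [f]
    rw [R0b m k, hfk] at h
    rw [R0b m b, w0]
    rw [w0] at h
    have hf : f (b + 1) = f b * ((2 * (b : ℝ) - 3) / (2 * (b + 1))) := by rw [f]
    rw [hf]
    have hk' : (b : ℝ) + 1 + k = m + 2 := by exact_mod_cast hk
    have hk2 : (k : ℝ) = m + 1 - b := by linarith
    have h1 := odd_ne3 b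
    have h2 : (2 * (m : ℝ) - 1 - 2 * b) ≠ 0 := by
      have := odd_ne m (b + 1)
      push_cast at this
      intro h; apply this; linarith
    have h3 : ((b : ℝ) + 1) ≠ 0 := by positivity
    have h4 : ((k : ℝ) + 1) ≠ 0 := by positivity
    push_cast at h ⊢
    have e1 : (2 * (m : ℝ) + 1 - 2 * (b + 1)) = 2 * m - 1 - 2 * b := by ring
    have e2 : (2 * (m : ℝ) + 1 - 2 * (k + 1)) = 2 * b - 3 := by rw [hk2]; ring
    have e3 : (2 * (k : ℝ) - 3) = 2 * m - 1 - 2 * b := by rw [hk2]; ring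
    rw [e2] at h
    rw [e3] at h
    rw [e1]
    field_simp at h ⊢
    linear_combination h

lemma D0_closed (m : ℕ) : ∀ b k : ℕ, b + k = m →
    R m 0 b * (4 ^ b * (b.factorial : ℝ) * ((2 * m).factorial : ℝ) * (k.factorial : ℝ)) =
      (m.factorial : ℝ) * ((2 * k).factorial : ℝ) := by
  intro b
  induction b with
  | zero =>
    intro k hk
    have : k = m := by omega
    subst this
    rw [R00]; simp; ring
  | succ b ih =>
    intro k hk
    have h := ih (k + 1) (by omega)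
    rw [R0b, w0]
    have hk' : (b : ℝ) + 1 + k = m := by exact_mod_cast hk
    have hb : (b : ℝ) = m - 1 - k := by linarith
    rw [Nat.factorial_succ k, show 2 * (k + 1) = (2 * k + 1) + 1 by ring,
      Nat.factorial_succ (2 * k + 1), Nat.factorial_succ (2 * k)] at h
    rw [Nat.factorial_succ b]
    push_cast at h ⊢
    have e1 : (2 * (m : ℝ) + 1 - 2 * (b + 1)) = 2 * k + 1 := by rw [hb]; ring
    rw [e1]
    have h1 : (2 * (k : ℝ) + 1) ≠ 0 := by positivity
    have h3 : ((b : ℝ) + 1) ≠ 0 := by positivity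
    have h4 : ((k : ℝ) + 1) ≠ 0 := by positivity
    have h5 : R m 0 b * (4 ^ b * (b.factorial : ℝ) * ((2 * m).factorial : ℝ) * (k.factorial : ℝ)) =
        (2 * (2 * (k : ℝ) + 1)) * (m.factorial : ℝ) * ((2 * k).factorial : ℝ) := by
      have : ((k : ℝ) + 1) * (R m 0 b * (4 ^ b * (b.factorial : ℝ) * ((2 * m).factorial : ℝ) *
          (k.factorial : ℝ))) = ((k : ℝ) + 1) * ((2 * (2 * (k : ℝ) + 1)) * (m.factorial : ℝ) *
          ((2 * k).factorial : ℝ)) := by linear_combination h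
      exact mul_left_cancel₀ h4 this
    field_simp
    rw [pow_succ]
    linear_combination 4 * h5

lemma D0_m (m : ℕ) : R m 0 m = 1 / (4 ^ m * ((2 * m).factorial : ℝ)) := by
  have h := D0_closed m m 0 (by omega)
  have h1 : (m.factorial : ℝ) ≠ 0 := by positivity
  have h2 : ((2 * m).factorial : ℝ) ≠ 0 := by positivity
  simp only [mul_zero, Nat.factorial_zero, Nat.cast_one, mul_one] at h
  rw [eq_div_iff (by positivity)]
  have : (m.factorial : ℝ) * (R m 0 m * (4 ^ m * ((2 * m).factorial : ℝ))) =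
      (m.factorial : ℝ) * 1 := by linear_combination h
  exact mul_left_cancel₀ h1 this

/-- the closed form -/
theorem closed (m : ℕ) (hm : 2 ≤ m) : R m 2 (m + 2) + R m 3 (m + 1) =
    3 * (m + 2) / (1024 * 4 ^ m * m ^ 2 * (m + 1) ^ 3 * (2 * m - 1) * (2 * m + 3) *
      ((2 * m).factorial : ℝ)) := by
  obtain ⟨p, rfl⟩ : ∃ p, m = p + 2 := ⟨m - 2, by omega⟩
  set M := p + 2 with hM
  rw [B3_eq]
  -- the full convolution vanishes
  have hz : ∑ i ∈ range (M + 3), (R M 0 i * ((2 * (i : ℝ) - M) / (8 * M * (M + 1)))) *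
      (R M 0 (M + 2 - i) * ((2 * ((M + 2 - i : ℕ) : ℝ) - M) / (8 * M * (M + 1)))) = 0 := by
    have h1 : ∑ q ∈ antidiagonal (M + 2), (R M 0 q.1 * ((2 * (q.1 : ℝ) - M) / (8 * M * (M + 1)))) *
        (R M 0 q.2 * ((2 * (q.2 : ℝ) - M) / (8 * M * (M + 1)))) = 0 := by
      have h2 : f (M + 2) * ∑ q ∈ antidiagonal (M + 2),
          (R M 0 q.1 * ((2 * (q.1 : ℝ) - M) / (8 * M * (M + 1)))) *
          (R M 0 q.2 * ((2 * (q.2 : ℝ) - M) / (8 * M * (M + 1)))) =
          R M 0 (M + 2) / (8 * M * (M + 1)) ^ 2 *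
            ((4 - ((M + 2 : ℕ) : ℝ) ^ 2) * G (M + 2) + 4 * H (M + 2)) := by
        rw [G, H, Finset.mul_sum, Finset.mul_sum, Finset.mul_sum, ← Finset.sum_add_distrib,
          Finset.mul_sum]
        apply Finset.sum_congr rfl
        intro q hq
        have hq' := Finset.HasAntidiagonal.mem_antidiagonal.1 hq
        have hK := relK M q.1 q.2 hq'
        have hs : (q.1 : ℝ) + q.2 = M + 2 := by exact_mod_cast hq'
        have hM2 : (M : ℝ) = q.1 + q.2 - 2 := by linarith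
        push_cast
        have e : f (M + 2) * (R M 0 q.1 * ((2 * (q.1 : ℝ) - M) / (8 * M * (M + 1))) *
            (R M 0 q.2 * ((2 * (q.2 : ℝ) - M) / (8 * M * (M + 1))))) =
            (R M 0 q.1 * R M 0 q.2 * f (M + 2)) *
              ((2 * (q.1 : ℝ) - M) * (2 * (q.2 : ℝ) - M)) / (8 * M * (M + 1)) ^ 2 := by
          field_simp
        rw [e, hK]
        have e2 : (2 * (q.1 : ℝ) - M) * (2 * (q.2 : ℝ) - M) =
            4 - ((M : ℝ) + 2) ^ 2 + 4 * (q.1 * q.2) := by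
          rw [hM2]; ring
        rw [e2]
        ring
      have h3 := GH p
      rw [show p + 4 = M + 2 by omega] at h3
      rw [h3.1, h3.2] at h2
      simp only [mul_zero, add_zero] at h2
      exact (mul_eq_zero.1 h2).resolve_left (f_ne _)
    rw [Finset.Nat.sum_antidiagonal_eq_sum_range_succ
      (fun a b => (R M 0 a * ((2 * (a : ℝ) - M) / (8 * M * (M + 1)))) *
        (R M 0 b * ((2 * (b : ℝ) - M) / (8 * M * (M + 1)))))] at h1
    exact h1
  have hd : ∑ i ∈ range (M + 3), R M 1 i * R M 1 (M + 2 - i) =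
      ∑ i ∈ range (M + 3), (R M 1 i * R M 1 (M + 2 - i) -
        (R M 0 i * ((2 * (i : ℝ) - M) / (8 * M * (M + 1)))) *
        (R M 0 (M + 2 - i) * ((2 * ((M + 2 - i : ℕ) : ℝ) - M) / (8 * M * (M + 1))))) := by
    rw [Finset.sum_sub_distrib, hz, sub_zero]
  rw [hd, Finset.sum_range_succ, Finset.sum_range_succ, show M + 1 = (p + 1) + 1 + 1 by omega,
    Finset.sum_range_succ', Finset.sum_range_succ']
  have hmid : ∑ k ∈ range (p + 1), (R M 1 (k + 1 + 1) * R M 1 (M + 2 - (k + 1 + 1)) -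
        (R M 0 (k + 1 + 1) * ((2 * ((k + 1 + 1 : ℕ) : ℝ) - M) / (8 * M * (M + 1)))) *
        (R M 0 (M + 2 - (k + 1 + 1)) *
          ((2 * ((M + 2 - (k + 1 + 1) : ℕ) : ℝ) - M) / (8 * M * (M + 1))))) = 0 := by
    apply Finset.sum_eq_zero
    intro k hk
    rw [Finset.mem_range] at hk
    rw [row1 M (by omega) (k + 1 + 1) (by omega), row1 M (by omega) (M + 2 - (k + 1 + 1)) (by omega)]
    ring
  rw [hmid, show (p + 1) + 1 + 1 = M + 1 by omega, show M + 2 - (M + 1) = 1 by omega,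
    show M + 2 - (M + 2) = 0 by omega, show M + 2 - (0 + 1) = M + 1 by omega,
    show M + 2 - 0 = M + 2 by omega]
  rw [row1_m1, row1_m2, row1 M (by omega) 0 (by omega), show 0 + 1 = 1 by rfl]
  have hD1 : R M 0 1 = 1 / (8 * (2 * M - 1)) := by
    rw [R0b, R00, w0]; push_cast
    rw [mul_one]
    congr 1
    ring
  have hDm1 : R M 0 (M + 1) = - R M 0 M / (8 * (M + 1)) := by
    rw [R0b, w0]; push_cast
    have : ((M : ℝ) + 1) ≠ 0 := by positivity
    have e : (8 * ((M : ℝ) + 1) * (2 * M + 1 - 2 * (M + 1))) = -(8 * (M + 1)) := by ring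
    rw [e]
    field_simp
  have hDm2 : R M 0 (M + 2) = R M 0 M / (192 * (M + 1) * (M + 2)) := by
    rw [R0b, hDm1, w0]; push_cast
    have h1 : ((M : ℝ) + 1) ≠ 0 := by positivity
    have h2 : ((M : ℝ) + 2) ≠ 0 := by positivity
    have e : (8 * ((M : ℝ) + 1 + 1) * (2 * M + 1 - 2 * (M + 1 + 1))) = -(24 * (M + 2)) := by ring
    rw [e]
    field_simp
    ring
  rw [hDm1, hDm2, hD1, R00, D0_m]
  have hM0 : (M : ℝ) ≠ 0 := by positivity
  have hM1 : ((M : ℝ) + 1) ≠ 0 := by positivity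
  have hM2 : ((M : ℝ) + 2) ≠ 0 := by positivity
  have hM3 : (2 * (M : ℝ) + 3) ≠ 0 := by positivity
  have hM4 : (2 * (M : ℝ) - 1) ≠ 0 := by
    have : (2 : ℝ) ≤ M := by exact_mod_cast hm
    intro h; linarith
  have hF : ((2 * M).factorial : ℝ) ≠ 0 := by positivity
  push_cast
  field_simp
  ring

end Pool.Agent.H2.WalkAlg
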