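import Pool.Agent.H2.WalkAlg

set_option autoImplicit false

namespace Pool.Agent.H2.WalkSum

open Finset

/-- The vertex `j(t)` of the walk with step sequence `x` that starts at `-n`. -/
def vertex (n : ℕ) (x : List ℤ) (t : ℕ) : ℤ := -(n : ℤ) + (x.take t).sum

/-- Admissible walks from `-n` to `n` with all steps equal to `-2` or `4`, at least two steps and
exactly `κ` steps equal to `-2`. -/
def Walks (n κ : ℕ) : Set (List ℤ) :=
  {x | 2 ≤ x.length ∧ (∀ s ∈ x, s = -2 ∨ s = 4) ∧ x.sum = 2 * (n : ℤ) ∧ x.count (-2) = κ ∧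
    ∀ t, 1 ≤ t → t < x.length → vertex n x t ≠ n ∧ vertex n x t ≠ -n}

/-- The weight of a walk. -/
noncomputable def h1 (n : ℕ) (x : List ℤ) : ℝ :=
  ∏ t ∈ Finset.Ico 1 x.length, 1 / ((n : ℝ) ^ 2 - (vertex n x t : ℝ) ^ 2)

/-- The weighted walk sum. -/
noncomputable def B (κ n : ℕ) : ℝ := ∑ᶠ x ∈ Walks n κ, h1 n x

/-- words with a letters -2 and b letters 4 -/
def L : ℕ → ℕ → Finset (List ℤ)
  | 0, 0 => {[]}
  | a + 1, 0 => (L a 0).image (List.cons (-2))
  | 0, b + 1 => (L 0 b).image (List.cons 4)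
  | a + 1, b + 1 => (L a (b + 1)).image (List.cons (-2)) ∪ (L (a + 1) b).image (List.cons 4)

lemma L00 : L 0 0 = {[]} := by rw [L]
lemma La0 (a : ℕ) : L (a + 1) 0 = (L a 0).image (List.cons (-2)) := by rw [L]
lemma L0b (b : ℕ) : L 0 (b + 1) = (L 0 b).image (List.cons 4) := by rw [L]
lemma Lab (a b : ℕ) : L (a + 1) (b + 1) =
    (L a (b + 1)).image (List.cons (-2)) ∪ (L (a + 1) b).image (List.cons 4) := by rw [L]

lemma mem_cons_neg (a b : ℕ) (y : List ℤ) : ((-2 : ℤ) :: y) ∈ L a b ↔ ∃ a', a = a' + 1 ∧ y ∈ L a' b := by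
  cases a with
  | zero =>
    cases b with
    | zero => simp [L00]
    | succ b => simp [L0b]
  | succ a =>
    cases b with
    | zero => simp [La0]
    | succ b => simp [Lab]

lemma mem_cons_pos (a b : ℕ) (y : List ℤ) : ((4 : ℤ) :: y) ∈ L a b ↔ ∃ b', b = b' + 1 ∧ y ∈ L a b' := by
  cases a with
  | zero =>
    cases b with
    | zero => simp [L00]
    | succ b => simp [L0b]
  | succ a =>
    cases b with
    | zero => simp [La0]
    | succ b => simp [Lab]

lemma mem_cons_oth (a b : ℕ) (s : ℤ) (y : List ℤ) (h : (s :: y) ∈ L a b) : s = -2 ∨ s = 4 := by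
  cases a with
  | zero =>
    cases b with
    | zero => simp [L00] at h
    | succ b =>
      rw [L0b, Finset.mem_image] at h
      obtain ⟨z, _, hz⟩ := h
      right; exact (List.cons.inj hz).1.symm
  | succ a =>
    cases b with
    | zero =>
      rw [La0, Finset.mem_image] at h
      obtain ⟨z, _, hz⟩ := h
      left; exact (List.cons.inj hz).1.symm
    | succ b =>
      rw [Lab, Finset.mem_union, Finset.mem_image, Finset.mem_image] at h
      rcases h with ⟨z, _, hz⟩ | ⟨z, _, hz⟩
      · left; exact (List.cons.inj hz).1.symm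
      · right; exact (List.cons.inj hz).1.symm

lemma mem_nil (a b : ℕ) : ([] : List ℤ) ∈ L a b ↔ a = 0 ∧ b = 0 := by
  cases a with
  | zero =>
    cases b with
    | zero => simp [L00]
    | succ b => simp [L0b]
  | succ a =>
    cases b with
    | zero => simp [La0]
    | succ b => simp [Lab]

lemma mem_L (x : List ℤ) : ∀ a b : ℕ, x ∈ L a b ↔
    (∀ s ∈ x, s = -2 ∨ s = 4) ∧ x.count (-2) = a ∧ x.count 4 = b := by
  induction x with
  | nil =>
    intro a b
    rw [mem_nil]
    simp [eq_comm]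
  | cons s y ih =>
    intro a b
    constructor
    · intro h
      rcases mem_cons_oth a b s y h with rfl | rfl
      · obtain ⟨a', rfl, hy⟩ := (mem_cons_neg a b y).1 h
        obtain ⟨h1, h2, h3⟩ := (ih a' b).1 hy
        refine ⟨?_, ?_, ?_⟩
        · intro t ht
          rcases List.mem_cons.1 ht with rfl | ht
          · left; rfl
          · exact h1 t ht
        · rw [List.count_cons_self, h2]
        · rw [List.count_cons_of_ne (by decide), h3]
      · obtain ⟨b', rfl, hy⟩ := (mem_cons_pos a b y).1 h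
        obtain ⟨h1, h2, h3⟩ := (ih a b').1 hy
        refine ⟨?_, ?_, ?_⟩
        · intro t ht
          rcases List.mem_cons.1 ht with rfl | ht
          · right; rfl
          · exact h1 t ht
        · rw [List.count_cons_of_ne (by decide), h2]
        · rw [List.count_cons_self, h3]
    · rintro ⟨h1, h2, h3⟩
      have hy : ∀ t ∈ y, t = -2 ∨ t = 4 := fun t ht => h1 t (List.mem_cons_of_mem _ ht)
      rcases h1 s List.mem_cons_self with rfl | rfl
      · rw [List.count_cons_self] at h2
        rw [List.count_cons_of_ne (by decide)] at h3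
        exact (mem_cons_neg a b y).2 ⟨y.count (-2), h2.symm, (ih _ _).2 ⟨hy, rfl, h3⟩⟩
      · rw [List.count_cons_of_ne (by decide)] at h2
        rw [List.count_cons_self] at h3
        exact (mem_cons_pos a b y).2 ⟨y.count 4, h3.symm, (ih _ _).2 ⟨hy, h2, rfl⟩⟩

lemma sum_eq (x : List ℤ) (h : ∀ s ∈ x, s = -2 ∨ s = 4) :
    x.sum = 4 * (x.count 4 : ℤ) - 2 * (x.count (-2) : ℤ) ∧
      x.length = x.count 4 + x.count (-2) := by
  induction x with
  | nil => simp
  | cons s y ih =>
    have hy : ∀ t ∈ y, t = -2 ∨ t = 4 := fun t ht => h t (List.mem_cons_of_mem _ ht)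
    obtain ⟨h1, h2⟩ := ih hy
    rcases h s List.mem_cons_self with rfl | rfl
    · rw [List.sum_cons, List.length_cons, List.count_cons_self,
        List.count_cons_of_ne (by decide), h1, h2]
      push_cast
      constructor <;> ring
    · rw [List.sum_cons, List.length_cons, List.count_cons_self,
        List.count_cons_of_ne (by decide), h1, h2]
      push_cast
      constructor <;> ring

/-- product of the weights of all start vertices of nonempty suffixes -/
noncomputable def g (n : ℕ) : List ℤ → ℝ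
  | [] => 1
  | s :: y => (1 / ((n : ℝ) ^ 2 - ((n : ℝ) - (((s :: y).sum : ℤ) : ℝ)) ^ 2)) * g n y

lemma g_prod (n : ℕ) (y : List ℤ) : g n y =
    ∏ t ∈ range y.length, 1 / ((n : ℝ) ^ 2 - ((n : ℝ) - (((y.drop t).sum : ℤ) : ℝ)) ^ 2) := by
  induction y with
  | nil => simp [g]
  | cons s y ih =>
    rw [g, List.length_cons, Finset.prod_range_succ', ih, mul_comm]
    rfl

lemma h1_cons (n : ℕ) (s : ℤ) (y : List ℤ) (h : (s :: y).sum = 2 * (n : ℤ)) :
    h1 n (s :: y) = g n y := by
  rw [g_prod, h1, Finset.prod_Ico_eq_prod_range, List.length_cons, Nat.add_sub_cancel]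
  apply Finset.prod_congr rfl
  intro t _
  have h2 : vertex n (s :: y) (1 + t) = (n : ℤ) - (y.drop t).sum := by
    unfold vertex
    have h3 := List.sum_take_add_sum_drop (s :: y) (1 + t)
    rw [h] at h3
    have h4 : (s :: y).drop (1 + t) = y.drop t := by
      rw [add_comm, List.drop_succ_cons]
    rw [h4] at h3
    linarith
  rw [h2]
  push_cast
  rfl

lemma disj (A A' : Finset (List ℤ)) :
    Disjoint (A.image (List.cons (-2))) (A'.image (List.cons 4)) := by
  rw [Finset.disjoint_left]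
  intro x hx hx'
  obtain ⟨y, _, rfl⟩ := Finset.mem_image.1 hx
  obtain ⟨z, _, hz⟩ := Finset.mem_image.1 hx'
  have := (List.cons.inj hz).1
  norm_num at this

lemma sum_cons (A : Finset (List ℤ)) (s : ℤ) (F : List ℤ → ℝ) :
    ∑ x ∈ A.image (List.cons s), F x = ∑ y ∈ A, F (s :: y) :=
  Finset.sum_image (fun _ _ _ _ h => (List.cons.inj h).2)

lemma weight_eq (m a b : ℕ) (x : List ℤ) (hx : x ∈ L a b) :
    (1 / (((2 * m + 1 : ℕ) : ℝ) ^ 2 - (((2 * m + 1 : ℕ) : ℝ) - ((x.sum : ℤ) : ℝ)) ^ 2)) =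
      WalkAlg.w m a b := by
  obtain ⟨h1, h2, h3⟩ := (mem_L x a b).1 hx
  rw [(sum_eq x h1).1, h2, h3, WalkAlg.w]
  push_cast
  congr 1
  ring

lemma sum_g (m : ℕ) : ∀ N a b : ℕ, a + b = N →
    ∑ x ∈ L a b, g (2 * m + 1) x = WalkAlg.R m a b := by
  intro N
  induction N with
  | zero =>
    intro a b h
    have ha : a = 0 := by omega
    have hb : b = 0 := by omega
    subst ha hb
    rw [L00, WalkAlg.R00]
    simp [g]
  | succ N ih =>
    intro a b h
    cases a with
    | zero =>
      cases b with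
      | zero => omega
      | succ b =>
        rw [L0b, sum_cons, WalkAlg.R0b, ← ih 0 b (by omega), Finset.mul_sum]
        apply Finset.sum_congr rfl
        intro y hy
        rw [g, weight_eq m 0 (b + 1) (4 :: y) ((mem_cons_pos _ _ _).2 ⟨b, rfl, hy⟩)]
    | succ a =>
      cases b with
      | zero =>
        rw [La0, sum_cons, WalkAlg.Ra0, ← ih a 0 (by omega), Finset.mul_sum]
        apply Finset.sum_congr rfl
        intro y hy
        rw [g, weight_eq m (a + 1) 0 (-2 :: y) ((mem_cons_neg _ _ _).2 ⟨a, rfl, hy⟩)]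
      | succ b =>
        rw [Lab, Finset.sum_union (disj _ _), sum_cons, sum_cons, WalkAlg.Rab,
          ← ih a (b + 1) (by omega), ← ih (a + 1) b (by omega), mul_add, Finset.mul_sum,
          Finset.mul_sum]
        congr 1
        · apply Finset.sum_congr rfl
          intro y hy
          rw [g, weight_eq m (a + 1) (b + 1) (-2 :: y) ((mem_cons_neg _ _ _).2 ⟨a, rfl, hy⟩)]
        · apply Finset.sum_congr rfl
          intro y hy
          rw [g, weight_eq m (a + 1) (b + 1) (4 :: y) ((mem_cons_pos _ _ _).2 ⟨b, rfl, hy⟩)]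

lemma B3_R (m : ℕ) : B 3 (2 * m + 1) = WalkAlg.R m 2 (m + 2) + WalkAlg.R m 3 (m + 1) := by
  rw [B, finsum_mem_eq_sum_of_inter_support_eq (h1 (2 * m + 1)) (t := L 3 (m + 2))]
  · rw [show (3 : ℕ) = 2 + 1 by rfl, show m + 2 = (m + 1) + 1 by rfl, Lab,
      Finset.sum_union (disj _ _), sum_cons, sum_cons, ← sum_g m _ 2 (m + 1 + 1) rfl,
      ← sum_g m _ (2 + 1) (m + 1) rfl]
    congr 1
    · apply Finset.sum_congr rfl
      intro y hy
      apply h1_cons
      have hx : ((-2 : ℤ) :: y) ∈ L 3 (m + 2) := (mem_cons_neg _ _ _).2 ⟨2, rfl, hy⟩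
      obtain ⟨h1, h2, h3⟩ := (mem_L _ _ _).1 hx
      rw [(sum_eq _ h1).1, h2, h3]
      push_cast
      ring
    · apply Finset.sum_congr rfl
      intro y hy
      apply h1_cons
      have hx : ((4 : ℤ) :: y) ∈ L 3 (m + 2) := (mem_cons_pos _ _ _).2 ⟨m + 1, rfl, hy⟩
      obtain ⟨h1, h2, h3⟩ := (mem_L _ _ _).1 hx
      rw [(sum_eq _ h1).1, h2, h3]
      push_cast
      ring
  · ext x
    simp only [Set.mem_inter_iff, Function.mem_support, Finset.mem_coe]
    constructor
    · rintro ⟨⟨_, hs, hsum, hc, _⟩, hne⟩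
      refine ⟨(mem_L _ _ _).2 ⟨hs, hc, ?_⟩, hne⟩
      have := (sum_eq x hs).1
      rw [hsum, hc] at this
      push_cast at this
      omega
    · rintro ⟨hx, hne⟩
      obtain ⟨hs, hc2, hc4⟩ := (mem_L _ _ _).1 hx
      obtain ⟨e1, e2⟩ := sum_eq x hs
      refine ⟨⟨?_, hs, ?_, hc2, ?_⟩, hne⟩
      · omega
      · rw [e1, hc2, hc4]; push_cast; ring
      · intro t ht1 ht2
        by_contra hcon
        apply hne
        unfold h1
        apply Finset.prod_eq_zero (Finset.mem_Ico.2 ⟨ht1, ht2⟩)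
        have hv : vertex (2 * m + 1) x t = ((2 * m + 1 : ℕ) : ℤ) ∨
            vertex (2 * m + 1) x t = -((2 * m + 1 : ℕ) : ℤ) := by
          by_contra h
          push Not at h
          exact hcon h
        rcases hv with hv | hv
        · rw [hv]; push_cast; simp
        · have hz : (((2 * m + 1 : ℕ) : ℝ) ^ 2 - ((vertex (2 * m + 1) x t : ℤ) : ℝ) ^ 2) = 0 := by
            rw [hv]; push_cast; ring
          rw [hz, div_zero]

/-- the exact value of the walk sum -/
theorem B3_closed (m : ℕ) (hm : 2 ≤ m) : B 3 (2 * m + 1) =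
    3 * (m + 2) / (1024 * 4 ^ m * m ^ 2 * (m + 1) ^ 3 * (2 * m - 1) * (2 * m + 3) *
      ((2 * m).factorial : ℝ)) := by
  rw [B3_R, WalkAlg.closed m hm]

end Pool.Agent.H2.WalkSum
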